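import Pool.Agent.U154.RD.Rk

/-!
The moments of the radii of the nested layers, with the explicit rate.
-/

set_option autoImplicit false

namespace Pool.Agent.U154.RD

open MeasureTheory Real Filter Topology H974
open Pool.Agent.H863R2.NL (cN changes)
open Pool.Agent.W819.EN (dL Psi Lam)
open Pool.Agent.U154.UT (Lm cN_pos' legA Lm_zero Lm_ge)

/-- the rate -/
noncomputable def phi (lam : ℝ) : ℝ :=
  if lam ≤ 1 / 12 then 1 / (2 * cos (π * √(1 / 9 - 4 * lam / 3)))
  else 1 / (2 * cosh (π * √(4 * lam / 3 - 1 / 9)))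

theorem phi_tilt {lam : ℝ} (hl : -(5 / 48) < lam) : ∃ h : ℝ, Lm h = lam ∧ exp (-h) = phi lam := by
  have hπ := pi_pos
  have key : ∀ t : ℝ, 0 < t → Psi t = lam → phi lam = 1 / t → ∃ h : ℝ, Lm h = lam ∧
      exp (-h) = phi lam := by
    intro t ht h1 h2
    refine ⟨log t, ?_, ?_⟩
    · unfold Lm Pool.Agent.W819.EN.Lam
      rw [exp_log ht, h1]
    · rw [exp_neg, exp_log ht, h2, one_div]
  unfold phi at key ⊢
  by_cases h : lam ≤ 1 / 12
  · rw [if_pos h] at key ⊢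
    obtain ⟨y, hy⟩ : ∃ y, y = √(1 / 9 - 4 * lam / 3) := ⟨_, rfl⟩
    have hy0 : 0 ≤ y := by rw [hy]; exact sqrt_nonneg _
    have hy2 : y ^ 2 = 1 / 9 - 4 * lam / 3 := by rw [hy]; exact sq_sqrt (by linarith)
    have hy1 : y < 1 / 2 := by
      by_contra hc
      have := pow_le_pow_left₀ (by norm_num) (not_lt.1 hc) 2
      rw [hy2] at this
      linarith
    rw [← hy] at key ⊢
    have hx0 : 0 ≤ π * y := by positivity
    have hx1 : π * y < π / 2 := by
      have := mul_lt_mul_of_pos_left hy1 hπ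
      linarith
    have hc : 0 < cos (π * y) := cos_pos_of_mem_Ioo ⟨by linarith, hx1⟩
    refine key (2 * cos (π * y)) (by positivity) ?_ rfl
    unfold Psi
    have e1 : 2 * cos (π * y) / 2 = cos (π * y) := by ring
    rw [e1, arccos_cos hx0 (by linarith), max_eq_right (cos_le_one _)]
    have e2 : arcosh 1 = 0 := by simp
    rw [e2, mul_pow, hy2]
    field_simp
    ring
  · rw [if_neg h] at key ⊢
    obtain ⟨y, hy⟩ : ∃ y, y = √(4 * lam / 3 - 1 / 9) := ⟨_, rfl⟩
    have hy0 : 0 ≤ y := by rw [hy]; exact sqrt_nonneg _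
    have hy2 : y ^ 2 = 4 * lam / 3 - 1 / 9 := by
      rw [hy]
      exact sq_sqrt (by linarith [not_le.1 h])
    rw [← hy] at key ⊢
    have hx0 : 0 ≤ π * y := by positivity
    have hc : 0 < cosh (π * y) := cosh_pos _
    refine key (2 * cosh (π * y)) (by positivity) ?_ rfl
    unfold Psi
    have e1 : 2 * cosh (π * y) / 2 = cosh (π * y) := by ring
    rw [e1, arccos_of_one_le (one_le_cosh _), max_eq_left (one_le_cosh _), arcosh_cosh hx0,
      mul_pow, hy2]
    field_simp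
    ring

/-- the moments of the radii -/
theorem radii {lam : ℝ} (hl : -(5 / 48) < lam) : ∃ c C : ℝ, 0 < c ∧ 0 < C ∧
    ∀ k : ℕ, 1 ≤ k → (∀ᵐ ω ∂(bondLaw hlf), k ≤ changes (radius k ω) ω) ∧
      Integrable (fun ω => ((radius k ω : ℕ) : ℝ) ^ (-lam)) (bondLaw hlf) ∧
      c * phi lam ^ k ≤ ∫ ω, ((radius k ω : ℕ) : ℝ) ^ (-lam) ∂(bondLaw hlf) ∧
      ∫ ω, ((radius k ω : ℕ) : ℝ) ^ (-lam) ∂(bondLaw hlf) ≤ C * phi lam ^ k := by
  obtain ⟨h, h1, h2⟩ := phi_tilt hl
  have hp : ∀ k : ℕ, phi lam ^ k = exp (-(h * k)) := by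
    intro k
    rw [← h2, ← exp_nat_mul]
    congr 1
    ring
  have hre : ∀ k : ℕ, ∀ᵐ ω ∂(bondLaw hlf), k ≤ changes (radius k ω) ω := by
    intro k
    filter_upwards [ae_reach k] with ω hω
    exact rad_spec hω
  have hc := cN_pos'
  rcases lt_trichotomy h 0 with h0 | h0 | h0
  · have hneg : Lm h < 0 := by
      have k1 := Lm_tan h 0
      have k2 := Pool.Agent.W933.EN.dL_pos legA h
      rw [Lm_zero] at k1
      have k3 : dL h * h < 0 := mul_neg_of_pos_of_neg k2 h0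
      linarith
    obtain ⟨c, C, hc, hC, hk⟩ := mom_neg h0 hneg
    rw [h1] at hk
    refine ⟨c, C, hc, hC, fun k hk1 => ?_⟩
    obtain ⟨a1, a2, a3⟩ := hk k hk1
    rw [hp]
    exact ⟨hre k, a1, a2, a3⟩
  · have hz : lam = 0 := by rw [← h1, h0, Lm_zero]
    refine ⟨1, 1, one_pos, one_pos, fun k hk1 => ?_⟩
    rw [hp, hz, h0]
    simp only [neg_zero, rpow_zero, zero_mul, exp_zero, integral_const, probReal_univ, one_smul,
      mul_one, le_refl, and_self, and_true]
    exact ⟨hre k, integrable_const _⟩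
  · have hpos : 0 < Lm h := (mul_pos hc h0).trans_le (Lm_ge h)
    obtain ⟨c, C, hc, hC, hk⟩ := mom_pos h0 hpos
    rw [h1] at hk
    refine ⟨c, C, hc, hC, fun k hk1 => ?_⟩
    obtain ⟨a1, a2, a3⟩ := hk k hk1
    rw [hp]
    exact ⟨hre k, a1, a2, a3⟩

end Pool.Agent.U154.RD
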