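import Pool.Agent.U154.UT.Fin

/-!
The derivative of the exponent is bi-Lipschitz on bounded intervals.
-/

set_option autoImplicit false

namespace Pool.Agent.U154.RD

open MeasureTheory Real Filter Topology Finset
open Pool.Agent.H863R2.NL (EN ET IsPs cN vN)
open Pool.Agent.H450R4.NL (Ph qt tilt_coef)
open Pool.Agent.W819.EN (dL nuc Rate gam)
open Pool.Agent.U154.UT (Tilts Lm cN_pos' vN_pos' Lm_zero Lm_mono legA legB den_pos' nonneg_of_log)

theorem exp_diff {H h h' : ℝ} (h1 : h' ≤ h) (h2 : -H ≤ h') (h3 : h ≤ H) :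
    exp (-H) * (h - h') ≤ exp h - exp h' ∧ exp h - exp h' ≤ exp H * (h - h') := by
  have e1 : exp h = exp h' * exp (h - h') := by rw [← exp_add]; congr 1; ring
  have e2 : exp h' = exp h * exp (-(h - h')) := by rw [← exp_add]; congr 1; ring
  have a1 := add_one_le_exp (h - h')
  have a2 := add_one_le_exp (-(h - h'))
  have b1 : exp (-H) ≤ exp h' := exp_le_exp.2 h2
  have b2 : exp h ≤ exp H := exp_le_exp.2 h3
  have hd : 0 ≤ h - h' := by linarith
  constructor
  · have k1 : exp h' * (h - h' + 1) ≤ exp h := by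
      rw [e1]
      exact mul_le_mul_of_nonneg_left a1 (exp_pos _).le
    have k2 : exp (-H) * (h - h') ≤ exp h' * (h - h') := mul_le_mul_of_nonneg_right b1 hd
    linarith
  · have k1 : exp h * (-(h - h') + 1) ≤ exp h' := by
      conv_rhs => rw [e2]
      exact mul_le_mul_of_nonneg_left a2 (exp_pos _).le
    have k2 : exp h * (h - h') ≤ exp H * (h - h') := mul_le_mul_of_nonneg_right b2 hd
    linarith

/-- the shift of the mean by a change of the tilt -/
theorem qt_diff {H h h' p : ℝ} (hH : 0 ≤ H) (h1 : h' ≤ h) (h2 : -H ≤ h') (h3 : h ≤ H) (hp0 : 0 < p)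
    (hp1 : p ≤ 1 / 3) :
    2 / 3 * exp (-(3 * H)) * (h - h') * p ≤ qt (exp h) p - qt (exp h') p ∧
      qt (exp h) p - qt (exp h') p ≤ 9 / 4 * exp H * (h - h') * p := by
  obtain ⟨k1, k2⟩ := exp_diff h1 h2 h3
  have hd1 : 2 / 3 ≤ 1 + p * (exp h - 1) := by
    have := exp_pos h
    nlinarith
  have hd2 : 2 / 3 ≤ 1 + p * (exp h' - 1) := by
    have := exp_pos h'
    nlinarith
  have hd : 0 ≤ h - h' := by linarith
  have hE1 : 1 ≤ exp H := one_le_exp hH
  have hu : ∀ x, x ≤ H → 1 + p * (exp x - 1) ≤ exp H := by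
    intro x hx
    have b : exp x ≤ exp H := exp_le_exp.2 hx
    nlinarith
  have hu1 := hu h h3
  have hu2 := hu h' (by linarith)
  obtain ⟨D, hD⟩ : ∃ D, D = (1 + p * (exp h - 1)) * (1 + p * (exp h' - 1)) := ⟨_, rfl⟩
  have D1 : 4 / 9 ≤ D := by
    rw [hD]
    calc (4 / 9 : ℝ) = 2 / 3 * (2 / 3) := by norm_num
      _ ≤ _ := mul_le_mul hd1 hd2 (by norm_num) (by linarith)
  have D2 : D ≤ exp H * exp H := by
    rw [hD]
    exact mul_le_mul hu1 hu2 (by linarith) (exp_pos _).le
  have hDp : 0 < D := by linarith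
  have e1 : qt (exp h) p - qt (exp h') p = p * (1 - p) * (exp h - exp h') / D := by
    rw [hD]
    unfold qt
    have n1 : 1 + p * (exp h - 1) ≠ 0 := by linarith
    have n2 : 1 + p * (exp h' - 1) ≠ 0 := by linarith
    field_simp
    ring
  rw [e1]
  have hx0 : 0 ≤ exp (-H) * (h - h') := by positivity
  constructor
  · rw [le_div_iff₀ hDp]
    have e2 : exp (-(3 * H)) * (exp H * exp H) = exp (-H) := by
      rw [← exp_add, ← exp_add]
      congr 1
      ring
    have m1 : exp (-(3 * H)) * D ≤ exp (-H) := by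
      rw [← e2]
      exact mul_le_mul_of_nonneg_left D2 (exp_pos _).le
    calc 2 / 3 * exp (-(3 * H)) * (h - h') * p * D = p * (2 / 3) * ((exp (-(3 * H)) * D) *
          (h - h')) := by ring
      _ ≤ p * (1 - p) * (exp h - exp h') := by
          apply mul_le_mul (mul_le_mul_of_nonneg_left (by linarith) hp0.le) _ (by positivity)
            (mul_nonneg hp0.le (by linarith))
          exact (mul_le_mul_of_nonneg_right m1 hd).trans k1
  · rw [div_le_iff₀ hDp]
    calc p * (1 - p) * (exp h - exp h') ≤ p * 1 * (exp H * (h - h')) := by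
          apply mul_le_mul (mul_le_mul_of_nonneg_left (by linarith) hp0.le) k2 _ (by positivity)
          linarith
      _ = 9 / 4 * exp H * (h - h') * p * (4 / 9) := by ring
      _ ≤ _ := mul_le_mul_of_nonneg_left D1 (by positivity)

/-- the derivative of the exponent is bi-Lipschitz -/
theorem dL_lip {H C c : ℝ} {ps : ℕ → Multiset ℝ} (hH : 0 < H) (hT : Tilts H C c ps) :
    ∃ a b : ℝ, 0 < a ∧ 0 < b ∧ ∀ h' h, -H ≤ h' → h' ≤ h → h ≤ H →
      a * (h - h') ≤ dL h - dL h' ∧ dL h - dL h' ≤ b * (h - h') := by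
  have hc := cN_pos'
  have hC0 := hT.C0
  refine ⟨2 / 3 * exp (-(3 * H)) * cN, 9 / 4 * exp H * cN, by positivity, by positivity, ?_⟩
  intro h' h h2 h1 h3
  have hh : |h| ≤ H := abs_le.2 ⟨by linarith, h3⟩
  have hh' : |h'| ≤ H := abs_le.2 ⟨h2, by linarith⟩
  have hd : 0 ≤ h - h' := by linarith
  have key : ∀ n : ℕ, 1 ≤ n →
      2 / 3 * exp (-(3 * H)) * (h - h') * (ps n).sum ≤
        ((ps n).map (qt (exp h))).sum - ((ps n).map (qt (exp h'))).sum ∧
      ((ps n).map (qt (exp h))).sum - ((ps n).map (qt (exp h'))).sum ≤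
        9 / 4 * exp H * (h - h') * (ps n).sum := by
    intro n hn
    have k := fun p hp => qt_diff hH.le h1 h2 h3 ((hT.isps n hn).1 p hp).1 ((hT.isps n hn).1 p hp).2
    have e : ∀ x : ℝ, x * (ps n).sum = ((ps n).map (fun p => x * p)).sum := by
      intro x
      rw [Multiset.sum_map_mul_left, Multiset.map_id']
    rw [← Multiset.sum_map_sub]
    constructor
    · rw [e]
      exact Multiset.sum_map_le_sum_map _ _ fun p hp => (k p hp).1
    · rw [e]
      exact Multiset.sum_map_le_sum_map _ _ fun p hp => (k p hp).2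
  constructor
  · have : 0 ≤ dL h - dL h' - 2 / 3 * exp (-(3 * H)) * cN * (h - h') := by
      apply nonneg_of_log (y := 2 * C + 2 / 3 * exp (-(3 * H)) * (h - h') * C)
      intro n hn
      have k1 := (key n hn).1
      have k2 := abs_le.1 (hT.mean h hh n hn)
      have k3 := abs_le.1 (hT.sm n hn)
      have k4 := abs_le.1 (hT.mean h' hh' n hn)
      have k5 : 2 / 3 * exp (-(3 * H)) * (h - h') * (cN * log n - C) ≤
          2 / 3 * exp (-(3 * H)) * (h - h') * (ps n).sum :=
        mul_le_mul_of_nonneg_left (by linarith [k3.1]) (by positivity)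
      linarith [k2.1, k2.2, k4.1, k4.2]
    linarith
  · have : 0 ≤ 9 / 4 * exp H * cN * (h - h') - (dL h - dL h') := by
      apply nonneg_of_log (y := 2 * C + 9 / 4 * exp H * (h - h') * C)
      intro n hn
      have k1 := (key n hn).2
      have k2 := abs_le.1 (hT.mean h hh n hn)
      have k3 := abs_le.1 (hT.sm n hn)
      have k4 := abs_le.1 (hT.mean h' hh' n hn)
      have k5 : 9 / 4 * exp H * (h - h') * (ps n).sum ≤
          9 / 4 * exp H * (h - h') * (cN * log n + C) :=
        mul_le_mul_of_nonneg_left (by linarith [k3.2]) (by positivity)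
      linarith [k2.1, k2.2, k4.1, k4.2]
    linarith

/-- the quadratic upper bound of the exponent -/
theorem Lm_quad {H b : ℝ} (hb : ∀ h' h, -H ≤ h' → h' ≤ h → h ≤ H → dL h - dL h' ≤ b * (h - h'))
    {h s : ℝ} (h1 : |h| ≤ H) (h2 : |h + s| ≤ H) :
    Lm (h + s) ≤ Lm h + dL h * s + b * s ^ 2 := by
  have k1 := Pool.Agent.W933.EN.conv legA (h + s) h
  have a1 := abs_le.1 h1
  have a2 := abs_le.1 h2
  unfold Lm
  have k2 : (dL (h + s) - dL h) * s ≤ b * s ^ 2 := by
    rcases le_total 0 s with hs | hs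
    · have := hb h (h + s) a1.1 (by linarith) a2.2
      have := mul_le_mul_of_nonneg_right this hs
      linarith
    · have := hb (h + s) h a2.1 (by linarith) a1.2
      have := mul_le_mul_of_nonneg_right this (show 0 ≤ -s by linarith)
      linarith
  linarith

/-- the tangent -/
theorem Lm_tan (h h' : ℝ) : Lm h + dL h * (h' - h) ≤ Lm h' := by
  have k1 := Pool.Agent.W933.EN.conv legA h h'
  unfold Lm
  linarith

end Pool.Agent.U154.RD
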