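import Pool.Agent.U154.MD.Low
import Pool.Agent.U154.MD.Cex

/-!
Lower bounds of the lower tails, uniformly in the tilt.
-/

set_option autoImplicit false

namespace Pool.Agent.U154.RD

open MeasureTheory Real Filter Topology H974 Finset
open Pool.Agent.H863R2.NL (EN ET IsPs cN vN mu mu_nonneg fN EN_mul EN_const EN_le)
open Pool.Agent.H450R4.NL (Ph qt tilt_coef)
open Pool.Agent.W819.EN (dL nuc)
open Pool.Agent.U154.UT (Tilts lc Zc Zc_eq lc_nonneg mx EN_fsum EN_mono_mx wt_ind cyl_llt V_bd Lm cN_pos'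
  vN_pos' x0 x0_pos legA)
open Pool.Agent.U154.MD (down_sum0 V_le_mu pf1 pf1_pos pf1_step cH cH_pos log4_le)

theorem cyl_low_ge {H C c : ℝ} {ps : ℕ → Multiset ℝ} (hT : Tilts H C c ps) :
    ∃ k0 : ℝ, 0 < k0 ∧ ∀ D : ℝ, 0 ≤ D → ∀ᶠ n : ℕ in atTop, ∀ η, 0 ≤ η → η ≤ H → ∀ M : ℕ,
      |dL (-η) * log n - M| ≤ D →
      k0 * (exp (η * M + Lm (-η) * log n) / (1 + η * √(log n + x0))) ≤
        EN n (fun m => ind (m ≤ M)) := by
  have hC0 := hT.C0
  have hx0 := x0_pos
  obtain ⟨v1, v2, hv1, hv2, hV⟩ := V_bd hT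
  have hLog : Tendsto (fun n : ℕ => log (n : ℝ)) atTop atTop :=
    tendsto_log_atTop.comp tendsto_natCast_atTop_atTop
  obtain ⟨c1, hc1⟩ : ∃ c1 : ℝ, c1 = exp (-1) / √(2 * π) := ⟨_, rfl⟩
  have hc1p : 0 < c1 := by rw [hc1]; positivity
  obtain ⟨w, hw⟩ : ∃ w : ℝ, w = 1 + √v2 := ⟨_, rfl⟩
  have hw1 : 1 ≤ w := by rw [hw]; linarith [sqrt_nonneg v2]
  have hw2 : √v2 ≤ w := by rw [hw]; linarith
  refine ⟨exp (-1) * (c1 / 2) * exp (-(C * H)) / w, by positivity, ?_⟩
  intro D hD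
  filter_upwards [cyl_llt hT (ε := c1 / 2) (by positivity), hV,
    hLog.eventually_ge_atTop ((3 * (C + D) + 3) ^ 2 / v1), hLog.eventually_ge_atTop 1,
    eventually_ge_atTop 1] with n k1 k2 k3 k4 hn
  intro η h0 hhH M hM
  have hh : |-η| ≤ H := by rw [abs_neg, abs_of_nonneg h0]; exact hhH
  obtain ⟨μ, hμ⟩ : ∃ μ, μ = ((ps n).map (qt (exp (-η)))).sum := ⟨_, rfl⟩
  obtain ⟨V, hVd⟩ : ∃ V, V = (((ps n).map (qt (exp (-η)))).map (fun q => q * (1 - q))).sum :=
    ⟨_, rfl⟩
  have k5 := k2 (-η) hh V hVd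
  have hL : 0 < log (n : ℝ) := by linarith
  have hVp : 0 < V := lt_of_lt_of_le (by positivity) k5.1
  obtain ⟨s, hs⟩ : ∃ s, s = √V := ⟨_, rfl⟩
  have hs0 : 0 < s := by rw [hs]; exact sqrt_pos.2 hVp
  have hs2 : s ^ 2 = V := by rw [hs]; exact sq_sqrt hVp.le
  have hsC' : 3 * (C + D) + 3 ≤ s := by
    rw [hs]
    apply le_sqrt_of_sq_le
    rw [div_le_iff₀ hv1] at k3
    linarith [k5.1]
  have hsC : 3 * (C + D) ≤ s := by linarith
  have hVμ : V ≤ μ := by rw [hVd, hμ]; exact V_le_mu _ (hT.mem (-η) hh n hn)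
  have hZ0 : 0 < Zc n (-η) := by rw [Zc_eq (hT.isps n hn) (-η)]; exact exp_pos _
  have hZ : exp (-(C * H)) * exp (Lm (-η) * log n) ≤ Zc n (-η) := by
    rw [Zc_eq (hT.isps n hn) (-η), ← exp_add]
    apply exp_le_exp.2
    have h1 := (abs_le.1 (hT.lg (-η) hh n hn)).1
    have h2 : C * |-η| ≤ C * H := mul_le_mul_of_nonneg_left hh hC0
    linarith
  have hmean := hT.mean (-η) hh n hn
  rw [← hμ] at hmean
  have h1hs : 0 < 1 + η * s := by positivity
  obtain ⟨J, hJ⟩ : ∃ J : ℕ, J = ⌈s / (1 + η * s)⌉₊ := ⟨_, rfl⟩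
  have hJ1 : s / (1 + η * s) ≤ J := by rw [hJ]; exact Nat.le_ceil _
  have hsle : s / (1 + η * s) ≤ s := by
    apply div_le_self hs0.le
    have : 0 ≤ η * s := by positivity
    linarith
  have hmb := abs_le.1 hmean
  have hMb := abs_le.1 hM
  have hMs : s ≤ M := by
    have h1 : 3 * s ≤ s ^ 2 := by
      rw [sq]
      exact mul_le_mul_of_nonneg_right (by linarith) hs0.le
    linarith
  have key : ∀ j ∈ Finset.range (M + 1), (if j < J then exp (-1) * (Zc n (-η) * (c1 / 2 / s)) else 0) ≤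
      exp (-(η * j)) * lc n (-η) (M - j) := by
    intro j _
    by_cases hjJ : j < J
    · rw [if_pos hjJ]
      have hj1 : (j : ℝ) < s / (1 + η * s) := by
        rw [hJ, Nat.lt_ceil] at hjJ
        exact hjJ
      have hj0 : (0:ℝ) ≤ j := Nat.cast_nonneg j
      have hj2 : (j : ℝ) ≤ s := by linarith
      have hjM : j ≤ M := by
        have : (j:ℝ) ≤ M := by linarith
        exact_mod_cast this
      rw [lt_div_iff₀ h1hs] at hj1
      have hj3 : η * j ≤ 1 := by
        have : (η * j) * s ≤ 1 * s := by linarith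
        exact le_of_mul_le_mul_right this hs0
      have e1 : exp (-1) ≤ exp (-(η * j)) := exp_le_exp.2 (by linarith)
      have e2 : Zc n (-η) * (c1 / 2 / s) ≤ lc n (-η) (M - j) := by
        have h1 := (abs_le.1 (k1 (-η) hh (M - j) μ V hμ hVd)).1
        rw [← hs] at h1
        have h2 : (μ - ((M - j : ℕ) : ℝ)) ^ 2 / (2 * V) ≤ 1 := by
          rw [div_le_one (by positivity), ← hs2]
          have h3 : |μ - ((M - j : ℕ) : ℝ)| ≤ C + D + s := by
            rw [Nat.cast_sub hjM, abs_le]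
            constructor <;> linarith
          have h6 : (μ - ((M - j : ℕ) : ℝ)) ^ 2 ≤ (C + D + s) ^ 2 :=
            sq_le_sq' (by linarith [abs_le.1 h3]) (abs_le.1 h3).2
          have h7 : C + D + s ≤ 4 / 3 * s := by linarith
          have h8 : (C + D + s) ^ 2 ≤ (4 / 3 * s) ^ 2 := by
            apply pow_le_pow_left₀ (by positivity) h7
          have e : (4 / 3 * s) ^ 2 = 16 / 9 * s ^ 2 := by ring
          have := sq_nonneg s
          linarith
        have h9 : c1 / s ≤ exp (-((μ - ((M - j : ℕ) : ℝ)) ^ 2 / (2 * V))) / √(2 * π * V) := by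
          rw [sqrt_mul (by positivity), ← hs, hc1, div_div]
          apply div_le_div_of_nonneg_right _ (by positivity)
          apply exp_le_exp.2
          linarith
        have h10 : c1 / 2 / s ≤ lc n (-η) (M - j) / Zc n (-η) := by
          have : c1 / s = c1 / 2 / s + c1 / 2 / s := by ring
          linarith
        rw [le_div_iff₀ hZ0] at h10
        linarith
      exact mul_le_mul e1 e2 (by positivity) (exp_pos _).le
    · rw [if_neg hjJ]
      exact mul_nonneg (exp_pos _).le (lc_nonneg n (-η) (M - j))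
  have hsum := Finset.sum_le_sum key
  have hJM : J ≤ M + 1 := by
    rw [hJ]
    apply Nat.ceil_le.2
    push_cast
    linarith
  have e0 : ∑ j ∈ Finset.range (M + 1), (if j < J then exp (-1) * (Zc n (-η) * (c1 / 2 / s)) else 0)
      = J * (exp (-1) * (Zc n (-η) * (c1 / 2 / s))) := by
    rw [← Finset.sum_filter]
    have : Finset.filter (fun j => j < J) (Finset.range (M + 1)) = Finset.range J := by
      ext j
      simp only [Finset.mem_filter, Finset.mem_range]
      omega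
    rw [this, Finset.sum_const, card_range, nsmul_eq_mul]
  rw [e0] at hsum
  rw [down_sum0 n M η, ← Finset.mul_sum]
  refine le_trans ?_ (mul_le_mul_of_nonneg_left hsum (exp_pos _).le)
  have f1 : exp (η * M) * (s / (1 + η * s) * (exp (-1) * (Zc n (-η) * (c1 / 2 / s)))) ≤
      exp (η * M) * ((J : ℝ) * (exp (-1) * (Zc n (-η) * (c1 / 2 / s)))) := by
    apply mul_le_mul_of_nonneg_left _ (exp_pos _).le
    exact mul_le_mul_of_nonneg_right hJ1 (by positivity)
  refine le_trans ?_ f1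
  have f2 : exp (η * M) * (s / (1 + η * s) * (exp (-1) * (Zc n (-η) * (c1 / 2 / s)))) =
      exp (η * M) * exp (-1) * (c1 / 2) * Zc n (-η) / (1 + η * s) := by
    field_simp
  rw [f2]
  have f3 : 1 + η * s ≤ w * (1 + η * √(log n + x0)) := by
    have g1 : s ≤ w * √(log n + x0) := by
      calc s = √V := hs
        _ ≤ √(v2 * log n) := sqrt_le_sqrt k5.2
        _ = √v2 * √(log n) := by rw [sqrt_mul hv2.le]
        _ ≤ w * √(log n + x0) := by
          apply mul_le_mul hw2 _ (sqrt_nonneg _) (by linarith)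
          apply sqrt_le_sqrt
          linarith
    have g2 : η * s ≤ η * (w * √(log n + x0)) := mul_le_mul_of_nonneg_left g1 h0
    linarith
  have f4 : 0 < 1 + η * √(log n + x0) := by positivity
  calc exp (-1) * (c1 / 2) * exp (-(C * H)) / w *
        (exp (η * M + Lm (-η) * log n) / (1 + η * √(log n + x0)))
      = exp (η * M) * exp (-1) * (c1 / 2) * (exp (-(C * H)) * exp (Lm (-η) * log n)) /
        (w * (1 + η * √(log n + x0))) := by
        rw [exp_add]
        field_simp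
    _ ≤ exp (η * M) * exp (-1) * (c1 / 2) * Zc n (-η) / (1 + η * s) := by
        apply div_le_div₀ (by positivity) _ h1hs f3
        exact mul_le_mul_of_nonneg_left hZ (by positivity)

/-- the lower bound of the lower tails in the plane -/
theorem low_ge {H C c : ℝ} {ps : ℕ → Multiset ℝ} (hH : 0 < H) (hT : Tilts H C c ps) :
    ∃ k0 : ℝ, 0 < k0 ∧ ∀ D : ℝ, 0 ≤ D → ∀ᶠ n : ℕ in atTop, ∀ η, 0 ≤ η → η ≤ H → ∀ M : ℕ,
      |dL (-η) * log n - M| ≤ D →
      k0 * (exp (η * M) * pf1 η (log n)) ≤ ET n (fun m => ind (m ≤ M)) := by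
  obtain ⟨k0, hk0, h1⟩ := cyl_low_ge hT
  have hcH := cH_pos hH
  have hcp := cN_pos'
  refine ⟨k0 / cH H, by positivity, ?_⟩
  intro D hD
  obtain ⟨n1, hn1⟩ := eventually_atTop.1 (h1 (D + cN * 3) (by positivity))
  filter_upwards [eventually_ge_atTop (max 1 n1)] with n hn
  have hn36 : 1 ≤ n := (le_max_left _ _).trans hn
  have hnn1 : n1 ≤ n := (le_max_right _ _).trans hn
  intro η h0 hηH M hM
  have hanti : Antitone (fun m : ℕ => ind (m ≤ M)) := by
    intro a b hab
    show ind (b ≤ M) ≤ ind (a ≤ M)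
    by_cases hM : b ≤ M
    · rw [ind_of hM, ind_of (hab.trans hM)]
    · rw [ind_not_of hM]; exact ind_nonneg _
  have k1 := EN_le (n := 2 * n + 1) (k := n) (by omega) hanti
  have c1 : (1:ℝ) ≤ n := by exact_mod_cast hn36
  have c2 : (1:ℝ) ≤ ((2 * n + 1 : ℕ) : ℝ) := by exact_mod_cast (by omega : 1 ≤ 2 * n + 1)
  have c3 : ((2 * n + 1 : ℕ) : ℝ) ≤ 4 * n := by exact_mod_cast (by omega : 2 * n + 1 ≤ 4 * n)
  have l1 : log (n:ℝ) ≤ log ((2 * n + 1 : ℕ) : ℝ) := by
    apply log_le_log (by linarith)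
    exact_mod_cast (by omega : n ≤ 2 * n + 1)
  have l2 := log4_le c1 c2 c3
  have hdp := Pool.Agent.W933.EN.dL_pos legA (-η)
  have hdl : dL (-η) ≤ cN := by
    rw [← Pool.Agent.U154.UT.dL_zero]
    exact legA.mono.monotone (by linarith)
  have y1 : dL (-η) * log n ≤ dL (-η) * log ((2 * n + 1 : ℕ) : ℝ) :=
    mul_le_mul_of_nonneg_left l1 hdp.le
  have y2 : dL (-η) * log ((2 * n + 1 : ℕ) : ℝ) ≤ dL (-η) * log n + cN * 3 := by
    have i3 : dL (-η) * (log ((2 * n + 1 : ℕ) : ℝ) - log n) ≤ cN * 3 :=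
      mul_le_mul hdl (by linarith) (by linarith) hcp.le
    linarith
  have hMb := abs_le.1 hM
  have k2 := hn1 (2 * n + 1) (by omega) η h0 hηH M (by
    rw [abs_le]
    constructor <;> linarith)
  refine le_trans ?_ (k2.trans k1)
  have k3 := pf1_step h0 hηH (x := log (n:ℝ)) (y := log ((2 * n + 1 : ℕ) : ℝ))
    (log_nonneg c1) l2
  have e1 : exp (η * M + Lm (-η) * log ((2 * n + 1 : ℕ) : ℝ)) /
      (1 + η * √(log ((2 * n + 1 : ℕ) : ℝ) + x0)) =
      exp (η * M) * pf1 η (log ((2 * n + 1 : ℕ) : ℝ)) := by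
    unfold pf1
    rw [exp_add]
    ring
  rw [e1]
  calc k0 / cH H * (exp (η * M) * pf1 η (log n)) ≤
      k0 / cH H * (exp (η * M) * (cH H * pf1 η (log ((2 * n + 1 : ℕ) : ℝ)))) := by
        apply mul_le_mul_of_nonneg_left _ (by positivity)
        exact mul_le_mul_of_nonneg_left k3 (exp_pos _).le
    _ = _ := by field_simp

end Pool.Agent.U154.RD
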