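import Pool.Agent.U154.RD.Trm

/-!
The moments of the radii of the nested layers.
-/

set_option autoImplicit false

namespace Pool.Agent.U154.RD

open MeasureTheory Real Filter Topology H974 Finset
open Pool.Agent.H863R2.NL (EN ET IsPs cN vN changes prob_changes changes_mono meas_changes changes_eq
  TT_le_two)
open Pool.Agent.W819.EN (dL nuc)
open Pool.Agent.U154.UT (Tilts tilts Lm cN_pos' vN_pos' x0 x0_pos legA legB Lm_zero)
open Pool.Agent.U154.MD (pf1 low_plane)

/-- the radius of the `k`-th layer: the least distance `n` with `k ≤ changes n` -/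
noncomputable def radius (k : ℕ) (ω : sqLattice.edgeSet → Bool) : ℕ := sInf {n | k ≤ changes n ω}

noncomputable abbrev PP : Measure (sqLattice.edgeSet → Bool) := bondLaw hlf

theorem ch_zero (ω : sqLattice.edgeSet → Bool) : changes 0 ω = 0 := by
  rw [changes_eq]
  exact Nat.le_zero.1 (TT_le_two _ 0)

variable {k n : ℕ} {ω : sqLattice.edgeSet → Bool}

theorem rad_le (h : k ≤ changes n ω) : radius k ω ≤ n := Nat.sInf_le h

theorem rad_spec (h : ∃ n, k ≤ changes n ω) : k ≤ changes (radius k ω) ω := Nat.sInf_mem h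

theorem rad_none (h : ¬ ∃ n, k ≤ changes n ω) : radius k ω = 0 := by
  unfold radius
  have : {n | k ≤ changes n ω} = ∅ := by
    ext n
    simp only [Set.mem_empty_iff_false, iff_false]
    exact fun hn => h ⟨n, hn⟩
  rw [this, Nat.sInf_empty]

theorem rad_pos (hk : 1 ≤ k) (h : ∃ n, k ≤ changes n ω) : 1 ≤ radius k ω := by
  by_contra hc
  have h0 : radius k ω = 0 := by omega
  have h1 := rad_spec h
  rw [h0, ch_zero] at h1
  omega

theorem lt_rad (h : ∃ n, k ≤ changes n ω) (hn : changes n ω < k) : n < radius k ω := by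
  by_contra hc
  have h1 := rad_spec h
  have h2 := changes_mono (not_lt.1 hc) ω
  omega

theorem le_of_rad (h : ∃ n, k ≤ changes n ω) (hn : radius k ω ≤ n) : k ≤ changes n ω :=
  (rad_spec h).trans (changes_mono hn ω)

theorem rad_mono {k' : ℕ} (hkk : k ≤ k') (h : ∃ n, k' ≤ changes n ω) :
    radius k ω ≤ radius k' ω :=
  rad_le (hkk.trans (rad_spec h))

theorem meas_ge (k n : ℕ) : MeasurableSet {ω | k ≤ changes n ω} :=
  measurableSet_le measurable_const (meas_changes n)

theorem meas_rad (k : ℕ) : Measurable (radius k) := by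
  apply measurable_to_countable'
  intro m
  have h : radius k ⁻¹' {m} = ({ω | k ≤ changes m ω} ∩ ⋂ i ∈ range m, {ω | k ≤ changes i ω}ᶜ) ∪
      (if m = 0 then ⋂ n, {ω | k ≤ changes n ω}ᶜ else ∅) := by
    ext ω
    simp only [Set.mem_preimage, Set.mem_singleton_iff, Set.mem_union, Set.mem_inter_iff,
      Set.mem_iInter, Finset.mem_range, Set.mem_compl_iff, Set.mem_ofPred_eq, not_le]
    by_cases hex : ∃ n, k ≤ changes n ω
    · constructor
      · intro hm
        left
        rw [← hm]
        refine ⟨rad_spec hex, fun i hi => ?_⟩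
        by_contra hc
        have := rad_le (not_lt.1 hc)
        omega
      · rintro (⟨h1, h2⟩ | h1)
        · have h3 := rad_le h1
          by_contra hne
          have := h2 (radius k ω) (by omega)
          have := rad_spec hex
          omega
        · exfalso
          split_ifs at h1 with hm
          · obtain ⟨n, hn⟩ := hex
            have := Set.mem_iInter.1 h1 n
            exact this hn
          · exact h1
    · rw [rad_none hex]
      constructor
      · intro hm
        right
        rw [if_pos hm.symm]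
        rw [Set.mem_iInter]
        intro n hn
        exact hex ⟨n, hn⟩
      · rintro (⟨h1, _⟩ | h1)
        · exact absurd ⟨m, h1⟩ hex
        · split_ifs at h1 with hm
          · exact hm.symm
          · exact absurd h1 (Set.notMem_empty _)
  rw [h]
  apply MeasurableSet.union
  · apply (meas_ge k m).inter
    exact Finset.measurableSet_biInter _ fun i _ => (meas_ge k i).compl
  · split_ifs
    · exact MeasurableSet.iInter fun n => (meas_ge k n).compl
    · exact MeasurableSet.empty

theorem meas_pow (k : ℕ) (a : ℝ) : Measurable (fun ω => ((radius k ω : ℕ) : ℝ) ^ a) :=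
  (measurable_from_nat (f := fun n : ℕ => (n:ℝ) ^ a)).comp (meas_rad k)

/-- every layer is reached almost surely -/
theorem ae_reach (k : ℕ) : ∀ᵐ ω ∂PP, ∃ n, k ≤ changes n ω := by
  rw [ae_iff]
  have hH : (0:ℝ) < 1 := one_pos
  obtain ⟨C0, c0, ps, hT⟩ := tilts hH
  obtain ⟨Q, hQ, hup⟩ := low_plane hH hT
  have hneg : Lm (-1) < 0 := by
    have h1 := Lm_tan (-1) 0
    have h2 := Pool.Agent.W933.EN.dL_pos legA (-1)
    rw [Lm_zero] at h1
    linarith
  have hb : ∀ j : ℕ, PP.real {ω | ¬ ∃ n, k ≤ changes n ω} ≤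
      Q * exp k * exp (Lm (-1) * yj j) := by
    intro j
    have h1 : PP.real {ω | ¬ ∃ n, k ≤ changes n ω} ≤ PP.real {ω | changes (2 ^ (j + 1)) ω ≤ k} := by
      apply measureReal_mono _ (by finiteness)
      intro ω hω
      have h2 : ¬ k ≤ changes (2 ^ (j + 1)) ω := fun h => hω ⟨_, h⟩
      show changes (2 ^ (j + 1)) ω ≤ k
      omega
    have h2 : PP.real {ω | changes (2 ^ (j + 1)) ω ≤ k} = ET (2 ^ (j + 1)) (fun m => ind (m ≤ k)) :=
      prob_changes (2 ^ (j + 1)) (fun m => m ≤ k)
    have h3 := hup (2 ^ j) Nat.one_le_two_pow 1 zero_le_one le_rfl k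
    have e6 : 2 * 2 ^ j = 2 ^ (j + 1) := by rw [pow_succ]; ring
    rw [e6, yj_eq, one_mul] at h3
    have h4 : pf1 1 (yj j) ≤ exp (Lm (-1) * yj j) := by
      unfold pf1
      apply div_le_self (exp_pos _).le
      have := sqrt_nonneg (yj j + x0)
      linarith
    rw [h2] at h1
    refine h1.trans (h3.trans ?_)
    rw [mul_assoc]
    apply mul_le_mul_of_nonneg_left _ (by linarith)
    exact mul_le_mul_of_nonneg_left h4 (exp_pos _).le
  have hlim : Tendsto (fun j : ℕ => Q * exp k * exp (Lm (-1) * yj j)) atTop (𝓝 (Q * exp k * 0)) := by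
    apply Tendsto.const_mul
    apply tendsto_exp_atBot.comp
    have h1 : Tendsto (fun j : ℕ => yj j) atTop atTop := by
      unfold yj
      apply tendsto_atTop_add_const_right
      exact tendsto_natCast_atTop_atTop.const_mul_atTop l2_pos
    exact h1.const_mul_atTop_of_neg hneg
  rw [mul_zero] at hlim
  have h0 : PP.real {ω | ¬ ∃ n, k ≤ changes n ω} = 0 :=
    le_antisymm (ge_of_tendsto' hlim hb) measureReal_nonneg
  rwa [measureReal_eq_zero_iff] at h0

theorem pow_yj (a : ℝ) (j : ℕ) : ((2 ^ (j + 1) : ℕ) : ℝ) ^ a = exp (a * yj j) := by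
  rw [rpow_def_of_pos (by positivity), yj_eq, mul_comm]

/-- the integral of the sum -/
theorem int_sum (J : ℕ) (c : ℕ → ℝ) (A : ℕ → Set (sqLattice.edgeSet → Bool))
    (hA : ∀ j, MeasurableSet (A j)) :
    Integrable (fun ω => ∑ j ∈ range J, c j * (A j).indicator (fun _ => (1:ℝ)) ω) PP ∧
    ∫ ω, ∑ j ∈ range J, c j * (A j).indicator (fun _ => (1:ℝ)) ω ∂PP =
      ∑ j ∈ range J, c j * PP.real (A j) := by
  have hi : ∀ j, Integrable (fun ω => c j * (A j).indicator (fun _ => (1:ℝ)) ω) PP := fun j =>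
    ((integrable_const (1:ℝ)).indicator (hA j)).const_mul (c j)
  refine ⟨integrable_finsetSum _ fun j _ => hi j, ?_⟩
  rw [integral_finsetSum _ fun j _ => hi j]
  apply sum_congr rfl
  intro j _
  rw [integral_const_mul, integral_indicator_const _ (hA j), smul_eq_mul, mul_one]

theorem prob_ge (k n : ℕ) : PP.real {ω | k ≤ changes n ω} = ET n (fun m => ind (k ≤ m)) :=
  prob_changes n (fun m => k ≤ m)

theorem prob_lt (k n : ℕ) : PP.real {ω | changes n ω ≤ k - 1} =
    ET n (fun m => ind (m ≤ k - 1)) :=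
  prob_changes n (fun m => m ≤ k - 1)

theorem meas_lt (k n : ℕ) : MeasurableSet {ω | changes n ω ≤ k - 1} :=
  measurableSet_le (meas_changes n) measurable_const

/-- pointwise upper bound, negative moments -/
theorem pt_up {lam : ℝ} (hl : 0 < lam) (hk : 1 ≤ k) (J : ℕ) :
    ((radius k ω : ℕ) : ℝ) ^ (-lam) ≤ exp (lam * log 2) * ∑ j ∈ range J, exp (-(lam * yj j)) *
      ({ω | k ≤ changes (2 ^ (j + 1)) ω}).indicator (fun _ => (1:ℝ)) ω +
        exp (-(lam * (log 2 * J))) := by
  have hS : 0 ≤ ∑ j ∈ range J, exp (-(lam * yj j)) *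
      ({ω | k ≤ changes (2 ^ (j + 1)) ω}).indicator (fun _ => (1:ℝ)) ω :=
    sum_nonneg fun j _ => mul_nonneg (exp_pos _).le (Set.indicator_nonneg (fun _ _ => zero_le_one) _)
  have hp1 : 0 < exp (-(lam * (log 2 * J))) := exp_pos _
  have hp2 := mul_nonneg (exp_pos (lam * log 2)).le hS
  by_cases hex : ∃ n, k ≤ changes n ω
  · have h1 := rad_pos hk hex
    obtain ⟨i, hi⟩ : ∃ i, i = Nat.log 2 (radius k ω) := ⟨_, rfl⟩
    have i1 : 2 ^ i ≤ radius k ω := by rw [hi]; exact Nat.pow_log_le_self 2 (by omega)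
    have i2 : radius k ω < 2 ^ (i + 1) := by rw [hi]; exact Nat.lt_pow_succ_log_self (by norm_num) _
    have hR : (0:ℝ) < ((radius k ω : ℕ) : ℝ) := by exact_mod_cast (by omega : 0 < radius k ω)
    have i3 : ((radius k ω : ℕ) : ℝ) ^ (-lam) ≤ exp (-(lam * (log 2 * i))) := by
      have a1 : ((radius k ω : ℕ) : ℝ) ^ (-lam) ≤ ((2 ^ i : ℕ) : ℝ) ^ (-lam) :=
        rpow_le_rpow_of_nonpos (by positivity) (by exact_mod_cast i1) (by linarith)
      refine a1.trans (le_of_eq ?_)
      rw [rpow_def_of_pos (by positivity)]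
      congr 1
      push_cast
      rw [log_pow]
      ring
    rcases lt_or_ge i J with hJ | hJ
    · have h4 : exp (-(lam * yj i)) ≤ ∑ j ∈ range J, exp (-(lam * yj j)) *
          ({ω | k ≤ changes (2 ^ (j + 1)) ω}).indicator (fun _ => (1:ℝ)) ω := by
        have h5 := single_le_sum (f := fun j => exp (-(lam * yj j)) *
          ({ω | k ≤ changes (2 ^ (j + 1)) ω}).indicator (fun _ => (1:ℝ)) ω)
          (fun j _ => mul_nonneg (exp_pos _).le (Set.indicator_nonneg (fun _ _ => zero_le_one) _))
          (mem_range.2 hJ)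
        have h6 : ω ∈ {ω | k ≤ changes (2 ^ (i + 1)) ω} := le_of_rad hex i2.le
        simp only [Set.indicator_of_mem h6, mul_one] at h5
        exact h5
      have h7 : exp (-(lam * (log 2 * i))) = exp (lam * log 2) * exp (-(lam * yj i)) := by
        rw [← exp_add]
        congr 1
        unfold yj
        ring
      have h8 := mul_le_mul_of_nonneg_left h4 (exp_pos (lam * log 2)).le
      linarith
    · have h4 : exp (-(lam * (log 2 * i))) ≤ exp (-(lam * (log 2 * J))) := by
        apply exp_le_exp.2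
        have : (J:ℝ) ≤ i := by exact_mod_cast hJ
        have := mul_le_mul_of_nonneg_left (mul_le_mul_of_nonneg_left this l2_pos.le) hl.le
        linarith
      linarith
  · rw [rad_none hex, Nat.cast_zero, zero_rpow (by linarith)]
    linarith

/-- pointwise lower bound, negative moments -/
theorem pt_low {lam : ℝ} (hl : 0 < lam) (hk : 1 ≤ k) (hex : ∃ n, k ≤ changes n ω) (J : ℕ) :
    (1 - exp (-(lam * log 2))) * ∑ j ∈ range J, exp (-(lam * yj j)) *
      ({ω | k ≤ changes (2 ^ (j + 1)) ω}).indicator (fun _ => (1:ℝ)) ω ≤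
      ((radius k ω : ℕ) : ℝ) ^ (-lam) := by
  have h1 := rad_pos hk hex
  have hR : (0:ℝ) < ((radius k ω : ℕ) : ℝ) := by exact_mod_cast (by omega : 0 < radius k ω)
  obtain ⟨R, hRd⟩ : ∃ R, R = ((radius k ω : ℕ) : ℝ) ^ (-lam) := ⟨_, rfl⟩
  have hR0 : 0 ≤ R := by rw [hRd]; exact rpow_nonneg hR.le _
  rw [← hRd, mul_sum]
  have key : ∀ j ∈ range J, (1 - exp (-(lam * log 2))) * (exp (-(lam * yj j)) *
      ({ω | k ≤ changes (2 ^ (j + 1)) ω}).indicator (fun _ => (1:ℝ)) ω) ≤
      min R (exp (-(lam * yj j))) - min R (exp (-(lam * yj (j + 1)))) := by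
    intro j _
    have e1 : exp (-(lam * yj (j + 1))) = exp (-(lam * log 2)) * exp (-(lam * yj j)) := by
      rw [← exp_add]
      congr 1
      unfold yj
      push_cast
      ring
    have e2 : exp (-(lam * log 2)) ≤ 1 := by
      apply exp_le_one_iff.2
      have := mul_pos hl l2_pos
      linarith
    have e3 : exp (-(lam * yj (j + 1))) ≤ exp (-(lam * yj j)) := by
      rw [e1]
      exact mul_le_of_le_one_left (exp_pos _).le e2
    by_cases hm : ω ∈ {ω | k ≤ changes (2 ^ (j + 1)) ω}
    · rw [Set.indicator_of_mem hm, mul_one]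
      have h2 : radius k ω ≤ 2 ^ (j + 1) := rad_le hm
      have h3 : exp (-(lam * yj j)) ≤ R := by
        rw [hRd, ← neg_mul, ← pow_yj]
        exact rpow_le_rpow_of_nonpos hR (by exact_mod_cast h2) (by linarith)
      rw [min_eq_right h3, min_eq_right (e3.trans h3), e1]
      linarith
    · rw [Set.indicator_of_notMem hm, mul_zero, mul_zero]
      have := min_le_min_left R e3
      linarith
  refine (sum_le_sum key).trans ?_
  rw [sum_range_sub' (fun j => min R (exp (-(lam * yj j))))]
  have h2 : min R (exp (-(lam * yj 0))) ≤ R := min_le_left _ _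
  have h3 : 0 ≤ min R (exp (-(lam * yj J))) := le_min hR0 (exp_pos _).le
  linarith

/-- pointwise upper bound, positive moments -/
theorem pt_up' {a : ℝ} (ha : 0 < a) (J : ℕ) :
    (min ((radius k ω : ℕ) : ℝ) (2 ^ (J + 1))) ^ a ≤ exp (a * log 2) *
      (1 + ∑ j ∈ range J, exp (a * yj j) *
        ({ω | changes (2 ^ (j + 1)) ω ≤ k - 1}).indicator (fun _ => (1:ℝ)) ω) := by
  have hS : 0 ≤ ∑ j ∈ range J, exp (a * yj j) *
      ({ω | changes (2 ^ (j + 1)) ω ≤ k - 1}).indicator (fun _ => (1:ℝ)) ω :=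
    sum_nonneg fun j _ => mul_nonneg (exp_pos _).le (Set.indicator_nonneg (fun _ _ => zero_le_one) _)
  have hp2 := mul_nonneg (exp_pos (a * log 2)).le hS
  have e2 : (2:ℝ) ^ a = exp (a * log 2) := by rw [rpow_def_of_pos (by norm_num), mul_comm]
  have hm0 : 0 ≤ min ((radius k ω : ℕ) : ℝ) (2 ^ (J + 1)) := by positivity
  rcases le_or_gt (radius k ω) 2 with hR | hR
  · have h1 : (min ((radius k ω : ℕ) : ℝ) (2 ^ (J + 1))) ^ a ≤ 2 ^ a := by
      apply rpow_le_rpow hm0 _ ha.le
      exact (min_le_left _ _).trans (by exact_mod_cast hR)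
    rw [e2] at h1
    linarith
  · have hex : ∃ n, k ≤ changes n ω := by
      by_contra hc
      rw [rad_none hc] at hR
      omega
    rcases Nat.eq_zero_or_pos J with hJ | hJ
    · have h1 : (min ((radius k ω : ℕ) : ℝ) (2 ^ (J + 1))) ^ a ≤ 2 ^ a := by
        apply rpow_le_rpow hm0 _ ha.le
        refine (min_le_right _ _).trans ?_
        rw [hJ]
        norm_num
      rw [e2] at h1
      linarith
    · obtain ⟨J', hJ'⟩ : ∃ J', J = J' + 1 := ⟨J - 1, by omega⟩
      obtain ⟨m, hm⟩ : ∃ m, m = Nat.log 2 (radius k ω - 1) := ⟨_, rfl⟩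
      have m1 : 2 ^ m ≤ radius k ω - 1 := by rw [hm]; exact Nat.pow_log_le_self 2 (by omega)
      have m2 : radius k ω - 1 < 2 ^ (m + 1) := by
        rw [hm]; exact Nat.lt_pow_succ_log_self (by norm_num) _
      have m3 : 1 ≤ m := by
        rw [hm]
        exact Nat.log_pos (by norm_num) (by omega)
      obtain ⟨i, hi⟩ : ∃ i, m = i + 1 := ⟨m - 1, by omega⟩
      rw [hi] at m1 m2
      obtain ⟨i', hi1, hi2, hi3⟩ : ∃ i', i' ≤ i ∧ i' < J ∧ (i' = i ∨ i' = J') :=
        ⟨min i J', min_le_left _ _, by omega, by omega⟩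
      have c1 : changes (2 ^ (i + 1)) ω < k := by
        by_contra hc
        have := rad_le (not_lt.1 hc)
        omega
      have c2 : changes (2 ^ (i' + 1)) ω ≤ changes (2 ^ (i + 1)) ω :=
        changes_mono (Nat.pow_le_pow_right (by norm_num) (by omega)) ω
      have c3 : ω ∈ {ω | changes (2 ^ (i' + 1)) ω ≤ k - 1} := by
        show changes (2 ^ (i' + 1)) ω ≤ k - 1
        omega
      have c4 : min ((radius k ω : ℕ) : ℝ) (2 ^ (J + 1)) ≤ 2 ^ (i' + 2) := by
        rcases hi3 with h | h
        · refine (min_le_left _ _).trans ?_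
          rw [h]
          have : radius k ω ≤ 2 ^ (i + 2) := by
            rw [show i + 1 + 1 = i + 2 by ring] at m2
            omega
          exact_mod_cast this
        · refine (min_le_right _ _).trans ?_
          rw [h, hJ']
      have c5 : (min ((radius k ω : ℕ) : ℝ) (2 ^ (J + 1))) ^ a ≤ exp (a * log 2) * exp (a * yj i') := by
        refine (rpow_le_rpow hm0 c4 ha.le).trans (le_of_eq ?_)
        rw [rpow_def_of_pos (by positivity), log_pow, ← exp_add]
        congr 1
        unfold yj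
        push_cast
        ring
      have h5 := single_le_sum (f := fun j => exp (a * yj j) *
        ({ω | changes (2 ^ (j + 1)) ω ≤ k - 1}).indicator (fun _ => (1:ℝ)) ω)
        (fun j _ => mul_nonneg (exp_pos _).le (Set.indicator_nonneg (fun _ _ => zero_le_one) _))
        (mem_range.2 hi2)
      simp only [Set.indicator_of_mem c3, mul_one] at h5
      have h6 := mul_le_mul_of_nonneg_left h5 (exp_pos (a * log 2)).le
      have := exp_pos (a * log 2)
      linarith

/-- pointwise lower bound, positive moments -/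
theorem pt_low' {a : ℝ} (ha : 0 < a) (hk : 1 ≤ k) (hex : ∃ n, k ≤ changes n ω) (J : ℕ) :
    (1 - exp (-(a * log 2))) * ∑ j ∈ range J, exp (a * yj j) *
      ({ω | changes (2 ^ (j + 1)) ω ≤ k - 1}).indicator (fun _ => (1:ℝ)) ω ≤
      ((radius k ω : ℕ) : ℝ) ^ a := by
  have h1 := rad_pos hk hex
  have hR : (0:ℝ) < ((radius k ω : ℕ) : ℝ) := by exact_mod_cast (by omega : 0 < radius k ω)
  obtain ⟨R, hRd⟩ : ∃ R, R = ((radius k ω : ℕ) : ℝ) ^ a := ⟨_, rfl⟩
  have hR0 : 0 ≤ R := by rw [hRd]; exact rpow_nonneg hR.le _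
  rw [← hRd, mul_sum]
  have key : ∀ j ∈ range J, (1 - exp (-(a * log 2))) * (exp (a * yj j) *
      ({ω | changes (2 ^ (j + 1)) ω ≤ k - 1}).indicator (fun _ => (1:ℝ)) ω) ≤
      min R (exp (a * yj (j + 1)) * exp (-(a * log 2))) -
        min R (exp (a * yj j) * exp (-(a * log 2))) := by
    intro j _
    have e1 : exp (a * yj (j + 1)) * exp (-(a * log 2)) = exp (a * yj j) := by
      rw [← exp_add]
      congr 1
      unfold yj
      push_cast
      ring
    have e2 : exp (-(a * log 2)) ≤ 1 := by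
      apply exp_le_one_iff.2
      have := mul_pos ha l2_pos
      linarith
    have e3 : exp (a * yj j) * exp (-(a * log 2)) ≤ exp (a * yj j) :=
      mul_le_of_le_one_right (exp_pos _).le e2
    rw [e1]
    by_cases hm : ω ∈ {ω | changes (2 ^ (j + 1)) ω ≤ k - 1}
    · rw [Set.indicator_of_mem hm, mul_one]
      have h2 : 2 ^ (j + 1) < radius k ω := by
        apply lt_rad hex
        have : changes (2 ^ (j + 1)) ω ≤ k - 1 := hm
        omega
      have h3 : exp (a * yj j) ≤ R := by
        rw [hRd, ← pow_yj]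
        exact rpow_le_rpow (by positivity) (by exact_mod_cast h2.le) ha.le
      rw [min_eq_right h3, min_eq_right (e3.trans h3)]
      linarith
    · rw [Set.indicator_of_notMem hm, mul_zero, mul_zero]
      have := min_le_min_left R e3
      linarith
  refine (sum_le_sum key).trans ?_
  rw [sum_range_sub (fun j => min R (exp (a * yj j) * exp (-(a * log 2))))]
  have h2 : min R (exp (a * yj J) * exp (-(a * log 2))) ≤ R := min_le_left _ _
  have h3 : 0 ≤ min R (exp (a * yj 0) * exp (-(a * log 2))) := le_min hR0 (by positivity)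
  linarith

/-- negative moments of the radii -/
theorem mom_pos {h : ℝ} (h0 : 0 < h) (hlam : 0 < Lm h) : ∃ c C : ℝ, 0 < c ∧ 0 < C ∧
    ∀ k : ℕ, 1 ≤ k → Integrable (fun ω => ((radius k ω : ℕ) : ℝ) ^ (-Lm h)) PP ∧
      c * exp (-(h * k)) ≤ ∫ ω, ((radius k ω : ℕ) : ℝ) ^ (-Lm h) ∂PP ∧
      ∫ ω, ((radius k ω : ℕ) : ℝ) ^ (-Lm h) ∂PP ≤ C * exp (-(h * k)) := by
  obtain ⟨lam, hl⟩ : ∃ lam, lam = Lm h := ⟨_, rfl⟩
  obtain ⟨c, C, hc, hC, k0, hk0, hsum⟩ := sum_pos h0
  rw [← hl] at hsum hlam ⊢
  have hl2 := l2_pos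
  have hbd : ∀ k : ℕ, ∀ ω, 0 ≤ ((radius k ω : ℕ) : ℝ) ^ (-lam) ∧
      ((radius k ω : ℕ) : ℝ) ^ (-lam) ≤ 1 := by
    intro k ω
    refine ⟨rpow_nonneg (Nat.cast_nonneg _) _, ?_⟩
    rcases Nat.eq_zero_or_pos (radius k ω) with hz | hz
    · rw [hz, Nat.cast_zero, zero_rpow (by linarith)]
      exact zero_le_one
    · exact rpow_le_one_of_one_le_of_nonpos (by exact_mod_cast hz) (by linarith)
  have hint : ∀ k : ℕ, Integrable (fun ω => ((radius k ω : ℕ) : ℝ) ^ (-lam)) PP := by
    intro k
    refine Integrable.of_bound (meas_pow k (-lam)).aestronglyMeasurable 1 ?_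
    exact Eventually.of_forall fun ω => by
      rw [Real.norm_eq_abs, abs_of_nonneg (hbd k ω).1]
      exact (hbd k ω).2
  have q0 : 0 < 1 - exp (-(lam * log 2)) := by
    have : exp (-(lam * log 2)) < 1 := exp_lt_one_iff.2 (by
      have := mul_pos hlam hl2
      linarith)
    linarith
  -- the bounds for large `k`
  have hbig : ∀ k : ℕ, k0 ≤ k →
      (1 - exp (-(lam * log 2))) * c * exp (-(h * k)) ≤
        ∫ ω, ((radius k ω : ℕ) : ℝ) ^ (-lam) ∂PP ∧
      ∫ ω, ((radius k ω : ℕ) : ℝ) ^ (-lam) ∂PP ≤ exp (lam * log 2) * C * exp (-(h * k)) := by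
    intro k hk
    obtain ⟨s1, J, s2⟩ := hsum k hk
    have hk1 : 1 ≤ k := hk0.trans hk
    constructor
    · obtain ⟨i1, i2⟩ := int_sum J (fun j => exp (-(lam * yj j)))
        (fun j => {ω | k ≤ changes (2 ^ (j + 1)) ω}) (fun j => meas_ge k _)
      have k1 : ∫ ω, (1 - exp (-(lam * log 2))) * (∑ j ∈ range J, exp (-(lam * yj j)) *
          ({ω | k ≤ changes (2 ^ (j + 1)) ω}).indicator (fun _ => (1:ℝ)) ω) ∂PP ≤
          ∫ ω, ((radius k ω : ℕ) : ℝ) ^ (-lam) ∂PP := by
        apply integral_mono_ae (i1.const_mul _) (hint k)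
        filter_upwards [ae_reach k] with ω hω
        exact pt_low hlam hk1 hω J
      rw [integral_const_mul, i2] at k1
      refine le_trans ?_ k1
      rw [mul_assoc]
      apply mul_le_mul_of_nonneg_left _ q0.le
      refine s2.trans (le_of_eq ?_)
      apply sum_congr rfl
      intro j _
      rw [prob_ge]
    · have k2 : ∀ J : ℕ, ∫ ω, ((radius k ω : ℕ) : ℝ) ^ (-lam) ∂PP ≤
          exp (lam * log 2) * C * exp (-(h * k)) + exp (-(lam * (log 2 * J))) := by
        intro J
        obtain ⟨i1, i2⟩ := int_sum J (fun j => exp (-(lam * yj j)))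
          (fun j => {ω | k ≤ changes (2 ^ (j + 1)) ω}) (fun j => meas_ge k _)
        have k1 : ∫ ω, ((radius k ω : ℕ) : ℝ) ^ (-lam) ∂PP ≤
            ∫ ω, (exp (lam * log 2) * (∑ j ∈ range J, exp (-(lam * yj j)) *
          ({ω | k ≤ changes (2 ^ (j + 1)) ω}).indicator (fun _ => (1:ℝ)) ω) +
            exp (-(lam * (log 2 * J)))) ∂PP := by
          apply integral_mono (hint k) ((i1.const_mul _).add (integrable_const _))
          intro ω
          exact pt_up hlam hk1 J
        rw [integral_add (i1.const_mul _) (integrable_const _), integral_const_mul, i2,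
          integral_const, probReal_univ, one_smul] at k1
        refine k1.trans ?_
        have s3 := s1 J
        have e : ∑ j ∈ range J, exp (-(lam * yj j)) * PP.real {ω | k ≤ changes (2 ^ (j + 1)) ω} =
            ∑ j ∈ range J, exp (-(lam * yj j)) * ET (2 ^ (j + 1)) (fun m => ind (k ≤ m)) := by
          apply sum_congr rfl
          intro j _
          rw [prob_ge]
        rw [e]
        have := mul_le_mul_of_nonneg_left s3 (exp_pos (lam * log 2)).le
        linarith
      have hlim : Tendsto (fun J : ℕ => exp (lam * log 2) * C * exp (-(h * k)) +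
          exp (-(lam * (log 2 * J)))) atTop (𝓝 (exp (lam * log 2) * C * exp (-(h * k)) + 0)) := by
        apply Tendsto.const_add
        apply tendsto_exp_neg_atTop_nhds_zero.comp
        exact (tendsto_natCast_atTop_atTop.const_mul_atTop hl2).const_mul_atTop hlam
      rw [add_zero] at hlim
      exact ge_of_tendsto' hlim k2
  refine ⟨(1 - exp (-(lam * log 2))) * c * exp (-(h * k0)), exp (lam * log 2) * C + exp (h * k0),
    by positivity, by positivity, ?_⟩
  intro k hk1
  refine ⟨hint k, ?_⟩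
  have hE := exp_pos (-(h * k))
  rcases le_or_gt k0 k with hk | hk
  · obtain ⟨b1, b2⟩ := hbig k hk
    constructor
    · refine le_trans ?_ b1
      apply mul_le_mul_of_nonneg_right _ hE.le
      apply mul_le_of_le_one_right (by positivity)
      apply exp_le_one_iff.2
      have : 0 ≤ h * k0 := by positivity
      linarith
    · refine b2.trans ?_
      apply mul_le_mul_of_nonneg_right _ hE.le
      have := exp_pos (h * k0)
      linarith
  · obtain ⟨b1, b2⟩ := hbig k0 le_rfl
    constructor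
    · have k1 : ∫ ω, ((radius k0 ω : ℕ) : ℝ) ^ (-lam) ∂PP ≤
          ∫ ω, ((radius k ω : ℕ) : ℝ) ^ (-lam) ∂PP := by
        apply integral_mono (hint k0) (hint k)
        intro ω
        by_cases hex : ∃ n, k0 ≤ changes n ω
        · have h1 : radius k ω ≤ radius k0 ω := rad_mono hk.le hex
          obtain ⟨n, hn⟩ := hex
          have h2 : 1 ≤ radius k ω := rad_pos hk1 ⟨n, hk.le.trans hn⟩
          exact rpow_le_rpow_of_nonpos (by exact_mod_cast h2) (by exact_mod_cast h1) (by linarith)
        · show ((radius k0 ω : ℕ) : ℝ) ^ (-lam) ≤ _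
          rw [rad_none hex, Nat.cast_zero, zero_rpow (by linarith)]
          exact (hbd k ω).1
      refine le_trans ?_ (b1.trans k1)
      have : exp (-(h * k)) ≤ 1 := by
        apply exp_le_one_iff.2
        have : 0 ≤ h * k := by positivity
        linarith
      exact mul_le_of_le_one_right (by positivity) this
    · have k1 : ∫ ω, ((radius k ω : ℕ) : ℝ) ^ (-lam) ∂PP ≤ 1 := by
        have := integral_mono (hint k) (integrable_const (μ := PP) (1:ℝ)) (fun ω => (hbd k ω).2)
        rwa [integral_const, probReal_univ, one_smul] at this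
      refine k1.trans ?_
      have h2 : 1 ≤ exp (h * k0) * exp (-(h * k)) := by
        rw [← exp_add]
        apply one_le_exp
        have : (k:ℝ) ≤ k0 := by exact_mod_cast hk.le
        have := mul_le_mul_of_nonneg_left this h0.le
        linarith
      have h3 : 0 ≤ exp (lam * log 2) * C * exp (-(h * k)) := by positivity
      linarith

/-- positive moments of the radii -/
theorem mom_neg {h : ℝ} (h0 : h < 0) (hlam : Lm h < 0) : ∃ c C : ℝ, 0 < c ∧ 0 < C ∧
    ∀ k : ℕ, 1 ≤ k → Integrable (fun ω => ((radius k ω : ℕ) : ℝ) ^ (-Lm h)) PP ∧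
      c * exp (-(h * k)) ≤ ∫ ω, ((radius k ω : ℕ) : ℝ) ^ (-Lm h) ∂PP ∧
      ∫ ω, ((radius k ω : ℕ) : ℝ) ^ (-Lm h) ∂PP ≤ C * exp (-(h * k)) := by
  obtain ⟨a, hl⟩ : ∃ a, a = -Lm h := ⟨_, rfl⟩
  obtain ⟨c, C, hc, hC, k0, hk0, hsum⟩ := sum_neg h0
  have ha : 0 < a := by linarith
  have hLa : Lm h = -a := by linarith
  rw [hLa] at hsum
  rw [← hl]
  simp only [neg_mul, neg_neg] at hsum
  have hl2 := l2_pos
  have q0 : 0 < 1 - exp (-(a * log 2)) := by
    have : exp (-(a * log 2)) < 1 := exp_lt_one_iff.2 (by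
      have := mul_pos ha hl2
      linarith)
    linarith
  have hnn : ∀ k : ℕ, ∀ ω, 0 ≤ ((radius k ω : ℕ) : ℝ) ^ a := fun k ω =>
    rpow_nonneg (Nat.cast_nonneg _) _
  -- the truncated integrals
  have hbig : ∀ k : ℕ, k0 ≤ k → ∀ J : ℕ,
      Integrable (fun ω => (min ((radius k ω : ℕ) : ℝ) (2 ^ (J + 1))) ^ a) PP ∧
      ∫ ω, (min ((radius k ω : ℕ) : ℝ) (2 ^ (J + 1))) ^ a ∂PP ≤
        exp (a * log 2) * (1 + C) * exp (-(h * k)) := by
    intro k hk J
    obtain ⟨s1, -⟩ := hsum k hk
    obtain ⟨i1, i2⟩ := int_sum J (fun j => exp (a * yj j))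
      (fun j => {ω | changes (2 ^ (j + 1)) ω ≤ k - 1}) (fun j => meas_lt k _)
    have hmeas : Measurable (fun ω => (min ((radius k ω : ℕ) : ℝ) (2 ^ (J + 1))) ^ a) :=
      (measurable_from_nat (f := fun n : ℕ => (min (n:ℝ) (2 ^ (J + 1))) ^ a)).comp (meas_rad k)
    have hti : Integrable (fun ω => (min ((radius k ω : ℕ) : ℝ) (2 ^ (J + 1))) ^ a) PP := by
      refine Integrable.of_bound hmeas.aestronglyMeasurable ((2 ^ (J + 1)) ^ a) ?_
      refine Eventually.of_forall fun ω => ?_
      have hm0 : 0 ≤ min ((radius k ω : ℕ) : ℝ) (2 ^ (J + 1)) := by positivity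
      rw [Real.norm_eq_abs, abs_of_nonneg (rpow_nonneg hm0 _)]
      exact rpow_le_rpow hm0 (min_le_right _ _) ha.le
    refine ⟨hti, ?_⟩
    have k1 : ∫ ω, (min ((radius k ω : ℕ) : ℝ) (2 ^ (J + 1))) ^ a ∂PP ≤
        ∫ ω, exp (a * log 2) * (1 + ∑ j ∈ range J, exp (a * yj j) *
        ({ω | changes (2 ^ (j + 1)) ω ≤ k - 1}).indicator (fun _ => (1:ℝ)) ω) ∂PP := by
      apply integral_mono hti (((integrable_const _).add i1).const_mul _)
      intro ω
      exact pt_up' ha J
    rw [integral_const_mul, integral_add (integrable_const _) i1, i2,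
          integral_const, probReal_univ, one_smul] at k1
    refine k1.trans ?_
    have e : ∑ j ∈ range J, exp (a * yj j) * PP.real {ω | changes (2 ^ (j + 1)) ω ≤ k - 1} =
        ∑ j ∈ range J, exp (a * yj j) * ET (2 ^ (j + 1)) (fun m => ind (m ≤ k - 1)) := by
      apply sum_congr rfl
      intro j _
      rw [prob_lt]
    rw [e, mul_assoc]
    apply mul_le_mul_of_nonneg_left _ (exp_pos _).le
    have s3 := s1 J
    have h2 : 1 ≤ exp (-(h * k)) := by
      apply one_le_exp
      have : (0:ℝ) ≤ k := Nat.cast_nonneg k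
      nlinarith
    linarith
  -- integrability and the upper bound
  have hup : ∀ k : ℕ, k0 ≤ k → Integrable (fun ω => ((radius k ω : ℕ) : ℝ) ^ a) PP ∧
      ∫ ω, ((radius k ω : ℕ) : ℝ) ^ a ∂PP ≤ exp (a * log 2) * (1 + C) * exp (-(h * k)) := by
    intro k hk
    have hB : 0 ≤ exp (a * log 2) * (1 + C) * exp (-(h * k)) := by positivity
    have hlim : ∀ ω, Tendsto (fun J : ℕ => ENNReal.ofReal
        ((min ((radius k ω : ℕ) : ℝ) (2 ^ (J + 1))) ^ a)) atTop
        (𝓝 (ENNReal.ofReal (((radius k ω : ℕ) : ℝ) ^ a))) := by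
      intro ω
      apply tendsto_const_nhds.congr'
      filter_upwards [eventually_ge_atTop (radius k ω)] with J hJ
      congr 2
      symm
      apply min_eq_left
      have h1 : radius k ω < 2 ^ (J + 1) :=
        (Nat.lt_two_pow_self).trans_le (Nat.pow_le_pow_right (by norm_num) (by omega))
      exact_mod_cast h1.le
    have hfat : ∫⁻ ω, ENNReal.ofReal (((radius k ω : ℕ) : ℝ) ^ a) ∂PP ≤
        ENNReal.ofReal (exp (a * log 2) * (1 + C) * exp (-(h * k))) := by
      have h1 : ∀ ω, ENNReal.ofReal (((radius k ω : ℕ) : ℝ) ^ a) =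
          liminf (fun J : ℕ => ENNReal.ofReal ((min ((radius k ω : ℕ) : ℝ) (2 ^ (J + 1))) ^ a))
            atTop := fun ω => (hlim ω).liminf_eq.symm
      simp_rw [h1]
      refine (lintegral_liminf_le (fun J => ?_)).trans ?_
      · exact ((measurable_from_nat (f := fun n : ℕ => (min (n:ℝ) (2 ^ (J + 1))) ^ a)).comp
          (meas_rad k)).ennreal_ofReal
      · apply liminf_le_of_le
        · isBoundedDefault
        · intro b hb
          obtain ⟨J, hJ⟩ := hb.exists
          refine hJ.trans ?_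
          obtain ⟨t1, t2⟩ := hbig k hk J
          rw [← ofReal_integral_eq_lintegral_ofReal t1 (Eventually.of_forall fun ω => by
            have hm0 : 0 ≤ min ((radius k ω : ℕ) : ℝ) (2 ^ (J + 1)) := by positivity
            exact rpow_nonneg hm0 _)]
          exact ENNReal.ofReal_le_ofReal t2
    have hI : Integrable (fun ω => ((radius k ω : ℕ) : ℝ) ^ a) PP := by
      refine ⟨(meas_pow k a).aestronglyMeasurable, ?_⟩
      rw [hasFiniteIntegral_iff_ofReal (Eventually.of_forall fun ω => hnn k ω)]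
      exact hfat.trans_lt ENNReal.ofReal_lt_top
    refine ⟨hI, ?_⟩
    rw [integral_eq_lintegral_of_nonneg_ae (Eventually.of_forall fun ω => hnn k ω)
      (meas_pow k a).aestronglyMeasurable]
    exact ENNReal.toReal_le_of_le_ofReal hB hfat
  -- the lower bound
  have hlow : ∀ k : ℕ, k0 ≤ k → (1 - exp (-(a * log 2))) * c * exp (-(h * k)) ≤
      ∫ ω, ((radius k ω : ℕ) : ℝ) ^ a ∂PP := by
    intro k hk
    obtain ⟨-, J, s2⟩ := hsum k hk
    have hk1 : 1 ≤ k := hk0.trans hk
    obtain ⟨i1, i2⟩ := int_sum J (fun j => exp (a * yj j))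
      (fun j => {ω | changes (2 ^ (j + 1)) ω ≤ k - 1}) (fun j => meas_lt k _)
    have k1 : ∫ ω, (1 - exp (-(a * log 2))) * (∑ j ∈ range J, exp (a * yj j) *
        ({ω | changes (2 ^ (j + 1)) ω ≤ k - 1}).indicator (fun _ => (1:ℝ)) ω) ∂PP ≤
        ∫ ω, ((radius k ω : ℕ) : ℝ) ^ a ∂PP := by
      apply integral_mono_ae (i1.const_mul _) (hup k hk).1
      filter_upwards [ae_reach k] with ω hω
      exact pt_low' ha hk1 hω J
    rw [integral_const_mul, i2] at k1
    refine le_trans ?_ k1
    rw [mul_assoc]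
    apply mul_le_mul_of_nonneg_left _ q0.le
    refine s2.trans (le_of_eq ?_)
    apply sum_congr rfl
    intro j _
    rw [prob_lt]
  have hh0 : 0 < -h := by linarith
  refine ⟨min ((1 - exp (-(a * log 2))) * c) (exp (h * k0)),
    exp (a * log 2) * (1 + C) * exp (-h * k0), by positivity, by positivity, ?_⟩
  intro k hk1
  have hE := exp_pos (-(h * k))
  have hE0 : 1 ≤ exp (-h * k0) := one_le_exp (by positivity)
  rcases le_or_gt k0 k with hk | hk
  · refine ⟨(hup k hk).1, ?_, ?_⟩
    · refine le_trans ?_ (hlow k hk)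
      exact mul_le_mul_of_nonneg_right (min_le_left _ _) hE.le
    · refine (hup k hk).2.trans ?_
      apply mul_le_mul_of_nonneg_right _ hE.le
      exact le_mul_of_one_le_right (by positivity) hE0
  · obtain ⟨b1, b2⟩ := hup k0 le_rfl
    have hle : ∀ᵐ ω ∂PP, ((radius k ω : ℕ) : ℝ) ^ a ≤ ((radius k0 ω : ℕ) : ℝ) ^ a := by
      filter_upwards [ae_reach k0] with ω hω
      apply rpow_le_rpow (Nat.cast_nonneg _) _ ha.le
      exact_mod_cast rad_mono hk.le hω
    have hI : Integrable (fun ω => ((radius k ω : ℕ) : ℝ) ^ a) PP := by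
      refine b1.mono' (meas_pow k a).aestronglyMeasurable ?_
      filter_upwards [hle] with ω hω
      rw [Real.norm_eq_abs, abs_of_nonneg (hnn k ω)]
      exact hω
    refine ⟨hI, ?_, ?_⟩
    · have k1 : (1:ℝ) ≤ ∫ ω, ((radius k ω : ℕ) : ℝ) ^ a ∂PP := by
        have := integral_mono_ae (integrable_const (μ := PP) (1:ℝ)) hI (by
          filter_upwards [ae_reach k] with ω hω
          have h2 := rad_pos hk1 hω
          exact one_le_rpow (by exact_mod_cast h2) ha.le)
        rwa [integral_const, probReal_univ, one_smul] at this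
      refine le_trans ?_ k1
      have h3 : min ((1 - exp (-(a * log 2))) * c) (exp (h * k0)) * exp (-(h * k)) ≤
          exp (h * k0) * exp (-(h * k)) := mul_le_mul_of_nonneg_right (min_le_right _ _) hE.le
      refine h3.trans ?_
      rw [← exp_add]
      apply exp_le_one_iff.2
      have h4 : (k:ℝ) ≤ k0 := by exact_mod_cast hk.le
      have := mul_le_mul_of_nonneg_left h4 hh0.le
      linarith
    · have k1 := (integral_mono_ae hI b1 hle).trans b2
      refine k1.trans ?_
      have h4 : exp (-(h * k0)) = exp (-h * k0) := by ring_nf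
      rw [h4]
      apply le_mul_of_one_le_right (by positivity)
      apply one_le_exp
      have : (0:ℝ) ≤ k := Nat.cast_nonneg k
      nlinarith

end Pool.Agent.U154.RD
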