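import Mathlib

/-!
Sums over the dyadic scales.
-/

set_option autoImplicit false

namespace Pool.Agent.U154.RD

open Real Finset

/-- two-sided geometric sums -/
theorem geo_abs {η : ℝ} (hη : 0 < η) (hη1 : η ≤ 1) (x : ℝ) (J : ℕ) :
    ∑ j ∈ range J, exp (-(η * |(j:ℝ) - x|)) ≤ 2 * exp 1 * (exp 1 / η) := by
  have h1 : exp (-η) < 1 := exp_lt_one_iff.2 (by linarith)
  have h5 : η * exp (-1) ≤ 1 - exp (-η) := by
    have i2 := add_one_le_exp η
    have i3 : exp (-η) * exp η = 1 := by rw [← exp_add]; simp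
    have i4 : exp (-η) * (η + 1) ≤ 1 :=
      calc exp (-η) * (η + 1) ≤ exp (-η) * exp η := mul_le_mul_of_nonneg_left i2 (exp_pos _).le
        _ = 1 := i3
    have i5 : exp (-1) ≤ exp (-η) := exp_le_exp.2 (by linarith)
    have i6 : η * exp (-1) ≤ η * exp (-η) := mul_le_mul_of_nonneg_left i5 hη.le
    linarith
  have h6 : 1 / (1 - exp (-η)) ≤ exp 1 / η := by
    rw [div_le_div_iff₀ (by linarith) hη]
    have i1 : exp 1 * exp (-1) = 1 := by rw [← exp_add]; simp
    have i2 := mul_le_mul_of_nonneg_left h5 (exp_pos 1).le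
    have i3 : exp 1 * (η * exp (-1)) = η := by
      calc exp 1 * (η * exp (-1)) = η * (exp 1 * exp (-1)) := by ring
        _ = η := by rw [i1, mul_one]
    linarith
  -- the geometric sum
  have hg : ∀ N : ℕ, ∑ j ∈ range N, exp (-η) ^ j ≤ exp 1 / η := by
    intro N
    refine le_trans ?_ h6
    rw [le_div_iff₀ (by linarith), geom_sum_mul_neg]
    have : 0 ≤ exp (-η) ^ N := by positivity
    linarith
  have hpow : ∀ j : ℕ, exp (-(η * j)) = exp (-η) ^ j := by
    intro j
    rw [← exp_nat_mul]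
    congr 1
    ring
  obtain ⟨m, hm⟩ : ∃ m : ℕ, m = ⌊x⌋₊ := ⟨_, rfl⟩
  -- the terms above and below
  have key : ∀ j ∈ range J, exp (-(η * |(j:ℝ) - x|)) ≤
      (if m ≤ j then exp 1 * exp (-η) ^ (j - m) else 0) +
        (if j < m then exp 1 * exp (-η) ^ (m - 1 - j) else 0) := by
    intro j _
    rcases le_or_gt m j with h | h
    · rw [if_pos h, if_neg (by omega), add_zero, ← hpow, ← exp_add]
      apply exp_le_exp.2
      have e : ((j - m : ℕ) : ℝ) = (j:ℝ) - m := by rw [Nat.cast_sub h]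
      rw [e]
      have h2 : x < m + 1 := by rw [hm]; exact Nat.lt_floor_add_one x
      have h3 : (j:ℝ) - m ≤ |(j:ℝ) - x| + 1 := by
        have := le_abs_self ((j:ℝ) - x)
        linarith
      have h4 := mul_le_mul_of_nonneg_left h3 hη.le
      linarith
    · rw [if_neg (by omega), if_pos h, zero_add, ← hpow, ← exp_add]
      apply exp_le_exp.2
      have e : ((m - 1 - j : ℕ) : ℝ) = (m:ℝ) - 1 - j := by
        rw [Nat.cast_sub (by omega), Nat.cast_sub (by omega)]
        simp
      rw [e]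
      have hx : 0 ≤ x := by
        by_contra hx
        have : m = 0 := by rw [hm]; exact Nat.floor_of_nonpos (not_le.1 hx).le
        omega
      have h2 : (m:ℝ) ≤ x := by rw [hm]; exact Nat.floor_le hx
      have h3 : (m:ℝ) - 1 - j ≤ |(j:ℝ) - x| := by
        have := neg_abs_le ((j:ℝ) - x)
        linarith
      have h4 := mul_le_mul_of_nonneg_left h3 hη.le
      linarith
  refine (sum_le_sum key).trans ?_
  rw [sum_add_distrib]
  have s1 : ∑ j ∈ range J, (if m ≤ j then exp 1 * exp (-η) ^ (j - m) else 0) ≤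
      exp 1 * (exp 1 / η) := by
    have e1 : ∑ j ∈ range J, (if m ≤ j then exp 1 * exp (-η) ^ (j - m) else 0) ≤
        ∑ j ∈ range (m + J), (if m ≤ j then exp 1 * exp (-η) ^ (j - m) else 0) := by
      apply sum_le_sum_of_subset_of_nonneg
      · intro a ha
        rw [mem_range] at ha ⊢
        omega
      · intro a _ _
        split_ifs
        · positivity
        · exact le_rfl
    refine e1.trans ?_
    rw [sum_range_add]
    have e2 : ∑ j ∈ range m, (if m ≤ j then exp 1 * exp (-η) ^ (j - m) else 0) = 0 := by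
      apply sum_eq_zero
      intro j hj
      rw [if_neg (by rw [mem_range] at hj; omega)]
    have e3 : ∀ j ∈ range J, (if m ≤ m + j then exp 1 * exp (-η) ^ (m + j - m) else 0) =
        exp 1 * exp (-η) ^ j := by
      intro j _
      rw [if_pos (by omega), Nat.add_sub_cancel_left]
    rw [e2, zero_add, sum_congr rfl e3, ← mul_sum]
    exact mul_le_mul_of_nonneg_left (hg J) (exp_pos _).le
  have s2 : ∑ j ∈ range J, (if j < m then exp 1 * exp (-η) ^ (m - 1 - j) else 0) ≤
      exp 1 * (exp 1 / η) := by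
    have e1 : ∑ j ∈ range J, (if j < m then exp 1 * exp (-η) ^ (m - 1 - j) else 0) ≤
        ∑ j ∈ range (m + J), (if j < m then exp 1 * exp (-η) ^ (m - 1 - j) else 0) := by
      apply sum_le_sum_of_subset_of_nonneg
      · intro a ha
        rw [mem_range] at ha ⊢
        omega
      · intro a _ _
        split_ifs
        · positivity
        · exact le_rfl
    refine e1.trans ?_
    rw [sum_range_add]
    have e2 : ∑ j ∈ range J, (if m + j < m then exp 1 * exp (-η) ^ (m - 1 - (m + j)) else 0)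
        = 0 := by
      apply sum_eq_zero
      intro j _
      rw [if_neg (by omega)]
    have e3 : ∀ j ∈ range m, (if j < m then exp 1 * exp (-η) ^ (m - 1 - j) else 0) =
        exp 1 * exp (-η) ^ (m - 1 - j) := by
      intro j hj
      rw [if_pos (mem_range.1 hj)]
    rw [e2, add_zero, sum_congr rfl e3, ← mul_sum, sum_range_reflect (fun j => exp (-η) ^ j) m]
    exact mul_le_mul_of_nonneg_left (hg m) (exp_pos _).le
  linarith

/-- the upper bound of the sums -/
theorem ups {μ x0 b l q : ℝ} (hμ : 0 < μ) (hx0 : 0 < x0) (hb : 0 ≤ b) (hl : 0 < l) (hq : 0 ≤ q) :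
    ∃ C : ℝ, 0 < C ∧ ∃ k0 : ℕ, 1 ≤ k0 ∧ ∀ k : ℕ, k0 ≤ k → ∀ (K h : ℝ), 0 ≤ K → ∀ F : ℕ → ℝ,
      (∀ j : ℕ, ∀ s : ℝ, |s| = 1 / √(k:ℝ) → F j ≤ K * (exp (-((h + s) * k) + (μ * s + b * s ^ 2) *
        (l * j + q)) / √(l * j + q + x0))) →
      ∀ J : ℕ, ∑ j ∈ range J, F j ≤ C * K * exp (-(h * k)) := by
  obtain ⟨C1, hC1⟩ : ∃ C1, C1 = √(2 * μ) + 8 / √x0 := ⟨_, rfl⟩
  have hsx : 0 < √x0 := sqrt_pos.2 hx0
  have hC1p : 0 < C1 := by rw [hC1]; positivity
  refine ⟨exp (b / μ) * C1 * (8 * exp 1 * exp 1 / (μ * l)), by positivity,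
    max 1 ⌈(2 * b / μ + μ * l) ^ 2⌉₊, le_max_left _ _, ?_⟩
  intro k hk K h hK F hF J
  have hk1 : 1 ≤ k := (le_max_left _ _).trans hk
  have hkR : (1:ℝ) ≤ k := by exact_mod_cast hk1
  have hk0 : (0:ℝ) < k := by linarith
  obtain ⟨r, hr⟩ : ∃ r, r = √(k:ℝ) := ⟨_, rfl⟩
  have hr0 : 0 < r := by rw [hr]; exact sqrt_pos.2 hk0
  have hrr : r ^ 2 = k := by rw [hr]; exact sq_sqrt hk0.le
  have hrb : 2 * b / μ + μ * l ≤ r := by
    rw [hr]
    apply le_sqrt_of_sq_le
    exact (Nat.le_ceil _).trans (by exact_mod_cast (le_max_right _ _).trans hk)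
  have hb1 : 0 ≤ 2 * b / μ := by positivity
  have hml : 0 < μ * l := by positivity
  have hrb1 : 2 * b / μ ≤ r := by linarith
  have hrb2 : μ * l ≤ r := by linarith
  -- the terms
  have key : ∀ j ∈ range J, F j ≤ (K * exp (-(h * k)) * exp (b / μ) * (C1 / r)) *
      exp (-((μ * l / (4 * r)) * |(j:ℝ) - (k - μ * q) / (μ * l)|)) := by
    intro j _
    obtain ⟨y, hy⟩ : ∃ y, y = l * j + q := ⟨_, rfl⟩
    have hy0 : 0 ≤ y := by rw [hy]; positivity
    obtain ⟨d, hd⟩ : ∃ d, d = (k:ℝ) - μ * y := ⟨_, rfl⟩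
    obtain ⟨s, hs, hsd⟩ : ∃ s : ℝ, |s| = 1 / r ∧ s * d = |d| / r := by
      rcases le_total 0 d with h0 | h0
      · exact ⟨1 / r, abs_of_pos (by positivity), by rw [abs_of_nonneg h0]; ring⟩
      · exact ⟨-(1 / r), by rw [abs_neg, abs_of_pos (by positivity)], by
          rw [abs_of_nonpos h0]; ring⟩
    have k1 := hF j s (by rw [← hr]; exact hs)
    rw [← hy] at k1
    have hs2 : s ^ 2 = 1 / k := by rw [← sq_abs, hs, div_pow, hrr, one_pow]
    have e1 : -((h + s) * k) + (μ * s + b * s ^ 2) * y = -(h * k) - |d| / r + b * y / k := by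
      have : -((h + s) * k) + (μ * s + b * s ^ 2) * y = -(h * k) - s * d + b * s ^ 2 * y := by
        rw [hd]; ring
      rw [this, hsd, hs2]
      ring
    have hda := abs_nonneg d
    have hyd : y ≤ (|d| + k) / μ := by
      rw [le_div_iff₀ hμ]
      have := neg_abs_le d
      linarith
    have e2 : b * y / k ≤ |d| / (2 * r) + b / μ := by
      have i1 : b * y / k ≤ b * ((|d| + k) / μ) / k := by
        apply div_le_div_of_nonneg_right _ hk0.le
        exact mul_le_mul_of_nonneg_left hyd hb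
      have i2 : b * ((|d| + k) / μ) / k = (b / μ) * |d| / r ^ 2 + b / μ := by
        rw [hrr]
        field_simp
      have i3 : (b / μ) * |d| / r ^ 2 ≤ |d| / (2 * r) := by
        rw [div_le_div_iff₀ (by positivity) (by positivity)]
        have i4 : (2 * b / μ) * (|d| * r) ≤ r * (|d| * r) :=
          mul_le_mul_of_nonneg_right hrb1 (by positivity)
        calc b / μ * |d| * (2 * r) = (2 * b / μ) * (|d| * r) := by ring
          _ ≤ _ := i4
          _ = _ := by ring
      linarith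
    have e3 : -(h * k) - |d| / r + b * y / k ≤
        -(h * k) + b / μ + (-(|d| / (4 * r)) + -(|d| / (4 * r))) := by
      have : |d| / r = |d| / (2 * r) + (|d| / (4 * r) + |d| / (4 * r)) := by
        field_simp
        ring
      linarith
    have e4 : exp (-(|d| / (4 * r))) / √(y + x0) ≤ C1 / r := by
      have hyx : 0 < √(y + x0) := sqrt_pos.2 (by linarith)
      rcases le_or_gt (k / (2 * μ)) y with h1 | h1
      · have i1 : exp (-(|d| / (4 * r))) ≤ 1 := by
          apply exp_le_one_iff.2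
          have : 0 ≤ |d| / (4 * r) := by positivity
          linarith
        have i2 : r / √(2 * μ) ≤ √(y + x0) := by
          rw [hr, ← sqrt_div hk0.le]
          apply sqrt_le_sqrt
          linarith
        have hs2 : 0 < √(2 * μ) := sqrt_pos.2 (by positivity)
        calc exp (-(|d| / (4 * r))) / √(y + x0) ≤ 1 / (r / √(2 * μ)) :=
              div_le_div₀ zero_le_one i1 (by positivity) i2
          _ = √(2 * μ) / r := by field_simp
          _ ≤ C1 / r := by
              apply div_le_div_of_nonneg_right _ hr0.le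
              rw [hC1]
              have : 0 ≤ 8 / √x0 := by positivity
              linarith
      · have i1 : (k:ℝ) / 2 ≤ |d| := by
          have : μ * y ≤ μ * (k / (2 * μ)) := mul_le_mul_of_nonneg_left h1.le hμ.le
          have e : μ * (k / (2 * μ)) = k / 2 := by field_simp
          have := le_abs_self d
          linarith
        have i2 : r / 8 ≤ |d| / (4 * r) := by
          rw [div_le_div_iff₀ (by norm_num) (by positivity)]
          have : r * (4 * r) = 4 * k := by rw [← hrr]; ring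
          linarith
        have i3 : exp (-(|d| / (4 * r))) ≤ 8 / r := by
          have j1 : exp (-(|d| / (4 * r))) ≤ exp (-(r / 8)) := exp_le_exp.2 (by linarith)
          have j2 := add_one_le_exp (r / 8)
          have j3 : exp (-(r / 8)) * exp (r / 8) = 1 := by rw [← exp_add]; simp
          have j4 : exp (-(r / 8)) * (r / 8) ≤ 1 :=
            calc exp (-(r / 8)) * (r / 8) ≤ exp (-(r / 8)) * exp (r / 8) :=
                  mul_le_mul_of_nonneg_left (by linarith) (exp_pos _).le
              _ = 1 := j3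
          refine j1.trans ?_
          rw [le_div_iff₀ hr0]
          linarith
        calc exp (-(|d| / (4 * r))) / √(y + x0) ≤ 8 / r / √x0 :=
              div_le_div₀ (by positivity) i3 hsx (sqrt_le_sqrt (by linarith))
          _ = 8 / √x0 / r := by ring
          _ ≤ C1 / r := by
              apply div_le_div_of_nonneg_right _ hr0.le
              rw [hC1]
              have := sqrt_nonneg (2 * μ)
              linarith
    have e5 : μ * l / (4 * r) * |(j:ℝ) - (k - μ * q) / (μ * l)| = |d| / (4 * r) := by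
      have : d = -(μ * l) * ((j:ℝ) - (k - μ * q) / (μ * l)) := by
        rw [hd, hy]
        field_simp
        ring
      rw [this, abs_mul, abs_neg, abs_of_pos hml]
      ring
    rw [e5]
    refine k1.trans ?_
    rw [e1]
    have hyx : 0 < √(y + x0) := sqrt_pos.2 (by linarith)
    calc K * (exp (-(h * k) - |d| / r + b * y / k) / √(y + x0)) ≤
        K * (exp (-(h * k) + b / μ + (-(|d| / (4 * r)) + -(|d| / (4 * r)))) / √(y + x0)) := by
          apply mul_le_mul_of_nonneg_left _ hK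
          apply div_le_div_of_nonneg_right _ hyx.le
          exact exp_le_exp.2 e3
      _ = (K * exp (-(h * k)) * exp (b / μ) * (exp (-(|d| / (4 * r))) / √(y + x0))) *
            exp (-(|d| / (4 * r))) := by
          rw [exp_add, exp_add, exp_add]
          ring
      _ ≤ (K * exp (-(h * k)) * exp (b / μ) * (C1 / r)) * exp (-(|d| / (4 * r))) := by
          apply mul_le_mul_of_nonneg_right _ (exp_pos _).le
          exact mul_le_mul_of_nonneg_left e4 (by positivity)
  refine (sum_le_sum key).trans ?_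
  rw [← mul_sum]
  have hη : 0 < μ * l / (4 * r) := by positivity
  have hη1 : μ * l / (4 * r) ≤ 1 := by
    rw [div_le_one (by positivity)]
    linarith
  have k2 := geo_abs hη hη1 ((k - μ * q) / (μ * l)) J
  calc (K * exp (-(h * k)) * exp (b / μ) * (C1 / r)) *
        ∑ j ∈ range J, exp (-((μ * l / (4 * r)) * |(j:ℝ) - (k - μ * q) / (μ * l)|)) ≤
      (K * exp (-(h * k)) * exp (b / μ) * (C1 / r)) * (2 * exp 1 * (exp 1 / (μ * l / (4 * r)))) :=
        mul_le_mul_of_nonneg_left k2 (by positivity)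
    _ = _ := by
        field_simp
        ring

/-- the lower bound of the sums -/
theorem los {μ l q : ℝ} (hμ : 0 < μ) (hl : 0 < l) (hq : 0 ≤ q) :
    ∃ k0 : ℕ, 1 ≤ k0 ∧ ∀ k : ℕ, k0 ≤ k → ∃ J0 : ℕ, ∀ (K h : ℝ), 0 ≤ K → ∀ F : ℕ → ℝ,
      (∀ j, 0 ≤ F j) → (∀ j : ℕ, |(k:ℝ) - μ * (l * j + q)| ≤ √(k:ℝ) →
        K * exp (-(h * k)) / √(k:ℝ) ≤ F j) →
      ∀ J : ℕ, J0 ≤ J → 1 / (μ * l) * K * exp (-(h * k)) ≤ ∑ j ∈ range J, F j := by
  have hml : 0 < μ * l := by positivity
  refine ⟨max 1 ⌈(μ * q + μ * l + 2) ^ 2⌉₊, le_max_left _ _, ?_⟩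
  intro k hk
  have hk1 : 1 ≤ k := (le_max_left _ _).trans hk
  have hkR : (1:ℝ) ≤ k := by exact_mod_cast hk1
  have hk0 : (0:ℝ) < k := by linarith
  obtain ⟨r, hr⟩ : ∃ r, r = √(k:ℝ) := ⟨_, rfl⟩
  have hr0 : 0 < r := by rw [hr]; exact sqrt_pos.2 hk0
  have hrr : r ^ 2 = k := by rw [hr]; exact sq_sqrt hk0.le
  have hrb : μ * q + μ * l + 2 ≤ r := by
    rw [hr]
    apply le_sqrt_of_sq_le
    exact (Nat.le_ceil _).trans (by exact_mod_cast (le_max_right _ _).trans hk)
  have hmq : 0 ≤ μ * q := by positivity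
  obtain ⟨x, hx⟩ : ∃ x, x = (k - μ * q) / (μ * l) := ⟨_, rfl⟩
  obtain ⟨w, hw⟩ : ∃ w, w = r / (μ * l) := ⟨_, rfl⟩
  have hw1 : 1 ≤ w := by rw [hw, le_div_iff₀ hml]; linarith
  have hxw : 0 ≤ x - w := by
    rw [hx, hw, ← sub_div]
    apply div_nonneg _ hml.le
    have : r * 2 ≤ r * r := mul_le_mul_of_nonneg_left (by linarith) hr0.le
    have h2 : r * r = k := by rw [← hrr]; ring
    linarith
  obtain ⟨j0, hj0⟩ : ∃ j0 : ℕ, j0 = ⌈x - w⌉₊ := ⟨_, rfl⟩
  have j1 : x - w ≤ j0 := by rw [hj0]; exact Nat.le_ceil _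
  have j2 : (j0:ℝ) < x - w + 1 := by rw [hj0]; exact Nat.ceil_lt_add_one hxw
  obtain ⟨m, hm⟩ : ∃ m : ℕ, m = ⌊w⌋₊ + 1 := ⟨_, rfl⟩
  have m1 : w < m := by rw [hm]; push_cast; exact Nat.lt_floor_add_one w
  have m2 : (m:ℝ) ≤ w + 1 := by
    rw [hm]
    push_cast
    have := Nat.floor_le (show 0 ≤ w by linarith)
    linarith
  refine ⟨j0 + m, ?_⟩
  intro K h hK F hF0 hF J hJ
  rw [← hr] at hF
  have s1 : ∑ i ∈ range m, K * exp (-(h * k)) / r ≤ ∑ i ∈ range m, F (j0 + i) := by
    apply sum_le_sum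
    intro i hi
    have hi' : (i:ℝ) + 1 ≤ m := by exact_mod_cast mem_range.1 hi
    apply hF
    have e1 : (k:ℝ) - μ * (l * ((j0 + i : ℕ) : ℝ) + q) = -(μ * l) * (((j0 + i : ℕ) : ℝ) - x) := by
      rw [hx]
      field_simp
      ring
    rw [e1, abs_mul, abs_neg, abs_of_pos hml]
    have e2 : |((j0 + i : ℕ) : ℝ) - x| ≤ w := by
      push_cast
      rw [abs_le]
      have : (0:ℝ) ≤ i := Nat.cast_nonneg i
      constructor <;> linarith
    calc μ * l * |((j0 + i : ℕ) : ℝ) - x| ≤ μ * l * w := mul_le_mul_of_nonneg_left e2 hml.le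
      _ = r := by rw [hw]; field_simp
  rw [sum_const, card_range, nsmul_eq_mul] at s1
  have s2 : ∑ i ∈ range m, F (j0 + i) ≤ ∑ j ∈ range J, F j := by
    have h1 : ∑ j ∈ range (j0 + m), F j ≤ ∑ j ∈ range J, F j := by
      apply sum_le_sum_of_subset_of_nonneg
      · intro a ha
        rw [mem_range] at ha ⊢
        omega
      · intro a _ _
        exact hF0 a
    rw [sum_range_add] at h1
    have h2 : 0 ≤ ∑ j ∈ range j0, F j := sum_nonneg fun j _ => hF0 j
    linarith
  refine le_trans ?_ (s1.trans s2)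
  have h3 : w * (K * exp (-(h * k)) / r) ≤ m * (K * exp (-(h * k)) / r) :=
    mul_le_mul_of_nonneg_right m1.le (by positivity)
  refine le_trans (le_of_eq ?_) h3
  rw [hw]
  field_simp

end Pool.Agent.U154.RD
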