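import Pool.Agent.U154.RD.Lip
import Pool.Agent.U154.RD.Sums
import Pool.Agent.U154.RD.LowGe
import Pool.Agent.U154.UT.Pl
import Pool.Agent.U154.BE.Fin

/-!
The sums over the dyadic scales of the weighted tails.
-/

set_option autoImplicit false

namespace Pool.Agent.U154.RD

open MeasureTheory Real Filter Topology H974 Finset
open Pool.Agent.H863R2.NL (EN ET IsPs cN vN)
open Pool.Agent.W819.EN (dL nuc)
open Pool.Agent.U154.UT (Tilts tilts Lm cN_pos' vN_pos' x0 x0_pos legA legB pf0 pf_eq0 pl_up pl_low)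
open Pool.Agent.U154.MD (pf1 low_plane)

/-- the logarithm of the scale -/
noncomputable def yj (j : ℕ) : ℝ := log 2 * j + log 2

theorem yj_eq (j : ℕ) : log ((2 ^ (j + 1) : ℕ) : ℝ) = yj j := by
  unfold yj
  push_cast
  rw [log_pow]
  push_cast
  ring

theorem l2_pos : 0 < log (2:ℝ) := log_pos (by norm_num)

theorem yj_pos (j : ℕ) : 0 < yj j := by
  have := l2_pos
  unfold yj
  positivity

/-- the tilt of a scale near the typical one -/
theorem core_low {H a h : ℝ} (ha : 0 < a)
    (haH : ∀ h' h, -H ≤ h' → h' ≤ h → h ≤ H → a * (h - h') ≤ dL h - dL h') {δ : ℝ} (hδ : 0 < δ)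
    (hH1 : -H ≤ h - δ) (hH2 : h + δ ≤ H) : ∃ k1 : ℕ, 4 ≤ k1 ∧ ∀ k : ℕ, k1 ≤ k → ∀ y : ℝ, 0 < y →
      |(k:ℝ) - dL h * y| ≤ √(k:ℝ) → ∃ h', |h' - h| ≤ δ ∧ dL h' * y = k ∧ k / (2 * dL h) ≤ y ∧
        y ≤ 2 * k / dL h ∧ -(h * k) - 2 * dL h / a ≤ -(h' * k) + (Lm h' - Lm h) * y := by
  have hμ := Pool.Agent.W933.EN.dL_pos legA h
  obtain ⟨μ, hμd⟩ : ∃ μ, μ = dL h := ⟨_, rfl⟩
  rw [← hμd] at hμ ⊢
  refine ⟨max 4 ⌈(2 * μ / (a * δ)) ^ 2⌉₊, le_max_left _ _, ?_⟩
  intro k hk y hy hd
  have hk4 : 4 ≤ k := (le_max_left _ _).trans hk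
  have hkR : (4:ℝ) ≤ k := by exact_mod_cast hk4
  obtain ⟨r, hr⟩ : ∃ r, r = √(k:ℝ) := ⟨_, rfl⟩
  have hr0 : 0 < r := by rw [hr]; exact sqrt_pos.2 (by linarith)
  have hrr : r ^ 2 = k := by rw [hr]; exact sq_sqrt (by linarith)
  have hr2 : 2 ≤ r := by
    rw [hr]
    apply le_sqrt_of_sq_le
    linarith
  have hrb : 2 * μ / (a * δ) ≤ r := by
    rw [hr]
    apply le_sqrt_of_sq_le
    exact (Nat.le_ceil _).trans (by exact_mod_cast (le_max_right _ _).trans hk)
  rw [← hr] at hd
  have hd' := abs_le.1 hd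
  have hrk : 2 * r ≤ k := by
    rw [← hrr, sq]
    exact mul_le_mul_of_nonneg_right hr2 hr0.le
  have hy1 : k / (2 * μ) ≤ y := by
    rw [div_le_iff₀ (by positivity)]
    linarith
  have hy2 : y ≤ 2 * k / μ := by
    rw [le_div_iff₀ hμ]
    linarith
  obtain ⟨h', hh'⟩ := legB.surj (k / y) (by positivity)
  have hν : |dL h' - μ| ≤ r / y := by
    rw [hh', le_div_iff₀ hy, ← abs_of_pos hy, ← abs_mul, abs_of_pos hy]
    have : (k / y - μ) * y = k - μ * y := by field_simp
    rw [this]
    exact hd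
  have hry : r / y ≤ 2 * μ / r := by
    rw [div_le_div_iff₀ hy hr0]
    rw [div_le_iff₀ (by positivity)] at hy1
    have : r * r = k := by rw [← hrr]; ring
    linarith
  have hra : 2 * μ / r ≤ a * δ := by
    rw [div_le_iff₀ (by positivity)] at hrb
    rw [div_le_iff₀ hr0]
    linarith
  have hνb := abs_le.1 (hν.trans (hry.trans hra))
  have hδ1 := haH h (h + δ) (by linarith) (by linarith) hH2
  have hδ2 := haH (h - δ) h hH1 (by linarith) (by linarith)
  rw [← hμd] at hδ1 hδ2
  have b1 : h' ≤ h + δ := by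
    by_contra hle
    have := legA.mono (not_le.1 hle)
    linarith
  have b2 : h - δ ≤ h' := by
    by_contra hle
    have := legA.mono (not_le.1 hle)
    linarith
  have hhb : |h' - h| ≤ δ := abs_le.2 ⟨by linarith, by linarith⟩
  have hlip : a * |h' - h| ≤ |dL h' - μ| := by
    rcases le_total h h' with h1 | h1
    · have := haH h h' (by linarith) h1 (by linarith)
      rw [← hμd] at this
      rw [abs_of_nonneg (by linarith : 0 ≤ h' - h)]
      exact this.trans (le_abs_self _)
    · have := haH h' h (by linarith) h1 (by linarith)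
      rw [← hμd] at this
      rw [abs_of_nonpos (by linarith : h' - h ≤ 0)]
      have h2 := neg_abs_le (dL h' - μ)
      linarith
  refine ⟨h', hhb, ?_, hy1, hy2, ?_⟩
  · rw [hh']
    field_simp
  · have k1 := Lm_tan h h'
    rw [← hμd] at k1
    have k2 : (μ * (h' - h)) * y ≤ (Lm h' - Lm h) * y :=
      mul_le_mul_of_nonneg_right (by linarith) hy.le
    have k3 : (h' - h) * (k - μ * y) ≤ 2 * μ / a := by
      have i1 : (h' - h) * (k - μ * y) ≤ |h' - h| * |(k:ℝ) - μ * y| := by
        rw [← abs_mul]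
        exact le_abs_self _
      have i2 : |h' - h| ≤ (2 * μ / r) / a := by
        rw [le_div_iff₀ ha]
        have := hν.trans hry
        linarith
      calc (h' - h) * (k - μ * y) ≤ |h' - h| * |(k:ℝ) - μ * y| := i1
        _ ≤ (2 * μ / r) / a * r := mul_le_mul i2 hd (abs_nonneg _) (by positivity)
        _ = 2 * μ / a := by field_simp
    linarith

theorem sqrt_ge_one {k : ℕ} (hk : 1 ≤ k) : 1 ≤ √(k:ℝ) := by
  rw [one_le_sqrt]
  exact_mod_cast hk

theorem root_le {μ x0 y : ℝ} (hx0 : 0 < x0) (hμ : 0 < μ) {k : ℕ} (hk : 1 ≤ k)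
    (hy : y ≤ 2 * k / μ) : √(y + x0) ≤ √(2 / μ + x0) * √(k:ℝ) := by
  have hkR : (1:ℝ) ≤ k := by exact_mod_cast hk
  rw [← sqrt_mul (by positivity)]
  apply sqrt_le_sqrt
  have e : (2 / μ + x0) * k = 2 * k / μ + x0 * k := by ring
  rw [e]
  have := mul_le_mul_of_nonneg_left hkR hx0.le
  linarith

/-- the sums for positive tilts -/
theorem sum_pos {h : ℝ} (h0 : 0 < h) : ∃ c C : ℝ, 0 < c ∧ 0 < C ∧ ∃ k0 : ℕ, 1 ≤ k0 ∧
    ∀ k : ℕ, k0 ≤ k →
      (∀ J : ℕ, ∑ j ∈ range J, exp (-(Lm h * yj j)) * ET (2 ^ (j + 1)) (fun m => ind (k ≤ m)) ≤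
        C * exp (-(h * k))) ∧
      ∃ J : ℕ, c * exp (-(h * k)) ≤
        ∑ j ∈ range J, exp (-(Lm h * yj j)) * ET (2 ^ (j + 1)) (fun m => ind (k ≤ m)) := by
  have hx0 := x0_pos
  have hl2 := l2_pos
  have hH : 0 < h + 1 := by linarith
  obtain ⟨C0, c0, ps, hT⟩ := tilts hH
  obtain ⟨a, b, ha, hb, hab⟩ := dL_lip hH hT
  obtain ⟨K, hK, hup⟩ := pl_up hH hT
  obtain ⟨kk, hkk, hlow⟩ := pl_low hH hT
  have hμ := Pool.Agent.W933.EN.dL_pos legA h
  obtain ⟨C, hC, ku, hku, hups⟩ := ups (x0 := x0) (b := b) (q := log 2) hμ hx0 hb.le hl2 hl2.le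
  obtain ⟨kl, hkl, hlos⟩ := los (q := log 2) hμ hl2 hl2.le
  obtain ⟨δ, hδd⟩ : ∃ δ : ℝ, δ = min 1 (h / 2) := ⟨_, rfl⟩
  have hδ : 0 < δ := by rw [hδd]; positivity
  have hδ1 : δ ≤ 1 := by rw [hδd]; exact min_le_left _ _
  have hδ2 : δ ≤ h / 2 := by rw [hδd]; exact min_le_right _ _
  obtain ⟨k1, hk1, hcore⟩ := core_low (h := h) ha (fun h' h x y z => (hab h' h x y z).1) hδ
    (by linarith) (by linarith)
  obtain ⟨n1, hn1⟩ := eventually_atTop.1 hlow
  obtain ⟨K2, hK2⟩ : ∃ K2, K2 = kk * exp (-(2 * dL h / a)) /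
    (1 + (h + 1) * √(2 / dL h + x0)) := ⟨_, rfl⟩
  have hK2p : 0 < K2 := by rw [hK2]; positivity
  refine ⟨1 / (dL h * log 2) * K2, C * (K * (2 / h)), by positivity, by positivity,
    max (max ku kl) (max (max k1 ⌈(1 / δ) ^ 2⌉₊) ⌈2 * dL h * log (n1 + 1 : ℕ)⌉₊), ?_, ?_⟩
  · exact hku.trans ((le_max_left _ _).trans (le_max_left _ _))
  intro k hk
  have e1 : ku ≤ k := ((le_max_left _ _).trans (le_max_left _ _)).trans hk
  have e2 : kl ≤ k := ((le_max_right _ _).trans (le_max_left _ _)).trans hk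
  have e3 : k1 ≤ k := (((le_max_left _ _).trans (le_max_left _ _)).trans (le_max_right _ _)).trans hk
  have e4 : ⌈(1 / δ) ^ 2⌉₊ ≤ k :=
    (((le_max_right _ _).trans (le_max_left _ _)).trans (le_max_right _ _)).trans hk
  have e5 : ⌈2 * dL h * log (n1 + 1 : ℕ)⌉₊ ≤ k :=
    ((le_max_right _ _).trans (le_max_right _ _)).trans hk
  have hk1' : 1 ≤ k := by omega
  have hkR : (1:ℝ) ≤ k := by exact_mod_cast hk1'
  have hrk := sqrt_ge_one hk1'
  have hrδ : 1 / √(k:ℝ) ≤ δ := by
    rw [div_le_iff₀ (by linarith), mul_comm, ← div_le_iff₀ hδ]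
    apply le_sqrt_of_sq_le
    exact (Nat.le_ceil _).trans (by exact_mod_cast e4)
  constructor
  · intro J
    have k2 := hups k e1 (K * (2 / h)) h (by positivity)
      (fun j => exp (-(Lm h * yj j)) * ET (2 ^ (j + 1)) (fun m => ind (k ≤ m))) (by
        intro j s hs
        have hs1 : |s| ≤ δ := by rw [hs]; exact hrδ
        have hsb := abs_le.1 hs1
        have g1 := hup (2 ^ (j + 1)) Nat.one_le_two_pow (h + s) (by linarith) (by linarith) k
        rw [yj_eq] at g1
        have g2 := Lm_quad (H := h + 1) (b := b) (fun h' h x y z => (hab h' h x y z).2)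
          (h := h) (s := s) (by rw [abs_of_pos h0]; linarith)
          (by rw [abs_of_nonneg (by linarith)]; linarith)
        have hy := yj_pos j
        have hyx : 0 < √(yj j + x0) := sqrt_pos.2 (by linarith)
        have g3 : pf0 (h + s) (yj j) ≤ 2 / h * (exp (Lm (h + s) * yj j) / √(yj j + x0)) := by
          unfold pf0
          have i1 : h / 2 * √(yj j + x0) ≤ 1 + (h + s) * √(yj j + x0) := by
            have := mul_le_mul_of_nonneg_right (show h / 2 ≤ h + s by linarith) hyx.le
            linarith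
          calc exp (Lm (h + s) * yj j) / (1 + (h + s) * √(yj j + x0)) ≤
              exp (Lm (h + s) * yj j) / (h / 2 * √(yj j + x0)) :=
                div_le_div_of_nonneg_left (exp_pos _).le (by positivity) i1
            _ = _ := by field_simp
        have hyd : yj j = log 2 * j + log 2 := rfl
        rw [← hyd]
        calc exp (-(Lm h * yj j)) * ET (2 ^ (j + 1)) (fun m => ind (k ≤ m)) ≤
            exp (-(Lm h * yj j)) * (K * (exp (-((h + s) * k)) *
              (2 / h * (exp (Lm (h + s) * yj j) / √(yj j + x0))))) := by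
              apply mul_le_mul_of_nonneg_left _ (exp_pos _).le
              refine g1.trans ?_
              apply mul_le_mul_of_nonneg_left _ hK.le
              exact mul_le_mul_of_nonneg_left g3 (exp_pos _).le
          _ = K * (2 / h) * (exp (-(Lm h * yj j) + -((h + s) * k) + Lm (h + s) * yj j) /
                √(yj j + x0)) := by
              rw [exp_add, exp_add]
              ring
          _ ≤ _ := by
              apply mul_le_mul_of_nonneg_left _ (by positivity)
              apply div_le_div_of_nonneg_right _ hyx.le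
              apply exp_le_exp.2
              have := mul_le_mul_of_nonneg_right g2 hy.le
              linarith) J
    exact k2
  · obtain ⟨J0, hJ0⟩ := hlos k e2
    refine ⟨J0, ?_⟩
    have k2 := hJ0 K2 h hK2p.le
      (fun j => exp (-(Lm h * yj j)) * ET (2 ^ (j + 1)) (fun m => ind (k ≤ m))) (by
        intro j
        apply mul_nonneg (exp_pos _).le
        exact (Pool.Agent.U154.BE.ET_ind_bd _ _).1) (by
        intro j hj
        have hyd : yj j = log 2 * j + log 2 := rfl
        rw [← hyd] at hj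
        have hy := yj_pos j
        obtain ⟨h', f1, f2, f3, f4, f5⟩ := hcore k e3 (yj j) hy hj
        have f1' := abs_le.1 f1
        have hn : n1 ≤ 2 ^ (j + 1) := by
          by_contra hcon
          have c1 : log ((2 ^ (j + 1) : ℕ) : ℝ) < log ((n1 + 1 : ℕ) : ℝ) := by
            apply log_lt_log
            · positivity
            · exact_mod_cast (by omega : 2 ^ (j + 1) < n1 + 1)
          rw [yj_eq] at c1
          have c2 : 2 * dL h * log (n1 + 1 : ℕ) ≤ k :=
            (Nat.le_ceil _).trans (by exact_mod_cast e5)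
          rw [div_le_iff₀ (by positivity)] at f3
          have c3 : yj j * (2 * dL h) < log ((n1 + 1 : ℕ) : ℝ) * (2 * dL h) :=
            mul_lt_mul_of_pos_right c1 (by positivity)
          linarith
        have g1 := hn1 (2 ^ (j + 1)) hn h' (by linarith) (by linarith) k (by
          rw [yj_eq, f2, sub_self, abs_zero]
          norm_num)
        rw [yj_eq] at g1
        have hh'0 : 0 ≤ h' := by linarith
        have hh'H : h' ≤ h + 1 := by linarith
        have g2 := root_le hx0 hμ hk1' f4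
        have g3 : 1 + h' * √(yj j + x0) ≤ (1 + (h + 1) * √(2 / dL h + x0)) * √(k:ℝ) := by
          have i1 : h' * √(yj j + x0) ≤ (h + 1) * (√(2 / dL h + x0) * √(k:ℝ)) :=
            mul_le_mul hh'H g2 (sqrt_nonneg _) hH.le
          linarith
        have hd1 : 0 < 1 + h' * √(yj j + x0) := by positivity
        have hd2 : 0 < (1 + (h + 1) * √(2 / dL h + x0)) * √(k:ℝ) := by positivity
        calc K2 * exp (-(h * k)) / √(k:ℝ) = kk * (exp (-(h * k) - 2 * dL h / a) /
              ((1 + (h + 1) * √(2 / dL h + x0)) * √(k:ℝ))) := by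
              rw [hK2, sub_eq_add_neg, exp_add]
              field_simp
          _ ≤ kk * (exp (-(h' * k) + (Lm h' - Lm h) * yj j) / (1 + h' * √(yj j + x0))) := by
              apply mul_le_mul_of_nonneg_left _ hkk.le
              exact div_le_div₀ (exp_pos _).le (exp_le_exp.2 f5) hd1 g3
          _ = exp (-(Lm h * yj j)) * (kk * (exp (-(h' * k)) * pf0 h' (yj j))) := by
              unfold pf0
              have : exp (-(h' * k) + (Lm h' - Lm h) * yj j) =
                  exp (-(Lm h * yj j)) * (exp (-(h' * k)) * exp (Lm h' * yj j)) := by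
                rw [← exp_add, ← exp_add]
                congr 1
                ring
              rw [this]
              ring
          _ ≤ _ := mul_le_mul_of_nonneg_left g1 (exp_pos _).le) J0 le_rfl
    exact k2

/-- the sums for negative tilts -/
theorem sum_neg {h : ℝ} (h0 : h < 0) : ∃ c C : ℝ, 0 < c ∧ 0 < C ∧ ∃ k0 : ℕ, 1 ≤ k0 ∧
    ∀ k : ℕ, k0 ≤ k →
      (∀ J : ℕ, ∑ j ∈ range J, exp (-(Lm h * yj j)) * ET (2 ^ (j + 1)) (fun m => ind (m ≤ k - 1)) ≤
        C * exp (-(h * k))) ∧
      ∃ J : ℕ, c * exp (-(h * k)) ≤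
        ∑ j ∈ range J, exp (-(Lm h * yj j)) * ET (2 ^ (j + 1)) (fun m => ind (m ≤ k - 1)) := by
  have hx0 := x0_pos
  have hl2 := l2_pos
  obtain ⟨H, hHd⟩ : ∃ H : ℝ, H = -h + 1 := ⟨_, rfl⟩
  have hH : 0 < H := by rw [hHd]; linarith
  obtain ⟨C0, c0, ps, hT⟩ := tilts hH
  obtain ⟨a, b, ha, hb, hab⟩ := dL_lip hH hT
  obtain ⟨K, hK, hup⟩ := low_plane hH hT
  have hK0 : 0 < K := by linarith
  obtain ⟨kk, hkk, hlow⟩ := low_ge hH hT
  have hμ := Pool.Agent.W933.EN.dL_pos legA h
  obtain ⟨C, hC, ku, hku, hups⟩ := ups (x0 := x0) (b := b) (q := log 2) hμ hx0 hb.le hl2 hl2.le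
  obtain ⟨kl, hkl, hlos⟩ := los (q := log 2) hμ hl2 hl2.le
  obtain ⟨δ, hδd⟩ : ∃ δ : ℝ, δ = min 1 (-h / 2) := ⟨_, rfl⟩
  have hδ : 0 < δ := by
    rw [hδd]
    apply lt_min one_pos
    linarith
  have hδ1 : δ ≤ 1 := by rw [hδd]; exact min_le_left _ _
  have hδ2 : δ ≤ -h / 2 := by rw [hδd]; exact min_le_right _ _
  obtain ⟨k1, hk1, hcore⟩ := core_low (h := h) ha (fun h' h x y z => (hab h' h x y z).1) hδ
    (by linarith) (by linarith)
  obtain ⟨n1, hn1⟩ := eventually_atTop.1 (hlow 1 zero_le_one)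
  obtain ⟨K2, hK2⟩ : ∃ K2, K2 = kk * exp (-H) * exp (-(2 * dL h / a)) /
    (1 + H * √(2 / dL h + x0)) := ⟨_, rfl⟩
  have hK2p : 0 < K2 := by rw [hK2]; positivity
  have hh2 : 0 < 2 / (-h) := by
    apply div_pos (by norm_num)
    linarith
  refine ⟨1 / (dL h * log 2) * K2, C * (K * (2 / (-h))), by positivity, by positivity,
    max (max ku kl) (max (max k1 ⌈(1 / δ) ^ 2⌉₊) ⌈2 * dL h * log (n1 + 1 : ℕ)⌉₊), ?_, ?_⟩
  · exact hku.trans ((le_max_left _ _).trans (le_max_left _ _))
  intro k hk
  have e1 : ku ≤ k := ((le_max_left _ _).trans (le_max_left _ _)).trans hk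
  have e2 : kl ≤ k := ((le_max_right _ _).trans (le_max_left _ _)).trans hk
  have e3 : k1 ≤ k := (((le_max_left _ _).trans (le_max_left _ _)).trans (le_max_right _ _)).trans hk
  have e4 : ⌈(1 / δ) ^ 2⌉₊ ≤ k :=
    (((le_max_right _ _).trans (le_max_left _ _)).trans (le_max_right _ _)).trans hk
  have e5 : ⌈2 * dL h * log (n1 + 1 : ℕ)⌉₊ ≤ k :=
    ((le_max_right _ _).trans (le_max_right _ _)).trans hk
  have hk1' : 1 ≤ k := by omega
  have hkR : (1:ℝ) ≤ k := by exact_mod_cast hk1'
  have hrk := sqrt_ge_one hk1'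
  have hkm : ((k - 1 : ℕ) : ℝ) = (k:ℝ) - 1 := by
    rw [Nat.cast_sub hk1']
    simp
  have hrδ : 1 / √(k:ℝ) ≤ δ := by
    rw [div_le_iff₀ (by linarith), mul_comm, ← div_le_iff₀ hδ]
    apply le_sqrt_of_sq_le
    exact (Nat.le_ceil _).trans (by exact_mod_cast e4)
  constructor
  · intro J
    have k2 := hups k e1 (K * (2 / (-h))) h (by positivity)
      (fun j => exp (-(Lm h * yj j)) * ET (2 ^ (j + 1)) (fun m => ind (m ≤ k - 1))) (by
        intro j s hs
        have hs1 : |s| ≤ δ := by rw [hs]; exact hrδ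
        have hsb := abs_le.1 hs1
        have g1 := hup (2 ^ j) Nat.one_le_two_pow (-(h + s)) (by linarith) (by linarith) (k - 1)
        have e6 : 2 * 2 ^ j = 2 ^ (j + 1) := by rw [pow_succ]; ring
        rw [e6, yj_eq] at g1
        have g2 := Lm_quad (H := H) (b := b) (fun h' h x y z => (hab h' h x y z).2)
          (h := h) (s := s) (by rw [abs_of_neg h0]; linarith)
          (by rw [abs_of_nonpos (by linarith)]; linarith)
        have hy := yj_pos j
        have hyx : 0 < √(yj j + x0) := sqrt_pos.2 (by linarith)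
        have g3 : pf1 (-(h + s)) (yj j) ≤
            2 / (-h) * (exp (Lm (h + s) * yj j) / √(yj j + x0)) := by
          unfold pf1
          rw [neg_neg]
          have i1 : -h / 2 * √(yj j + x0) ≤ 1 + -(h + s) * √(yj j + x0) := by
            have := mul_le_mul_of_nonneg_right (show -h / 2 ≤ -(h + s) by linarith) hyx.le
            linarith
          have i0 : 0 < -h := by linarith
          calc exp (Lm (h + s) * yj j) / (1 + -(h + s) * √(yj j + x0)) ≤
              exp (Lm (h + s) * yj j) / (-h / 2 * √(yj j + x0)) :=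
                div_le_div_of_nonneg_left (exp_pos _).le (by positivity) i1
            _ = _ := by field_simp
        have g4 : exp (-(h + s) * ((k - 1 : ℕ) : ℝ)) ≤ exp (-((h + s) * k)) := by
          apply exp_le_exp.2
          rw [hkm]
          linarith
        have hyd : yj j = log 2 * j + log 2 := rfl
        rw [← hyd]
        have i0 : 0 < -h := by linarith
        calc exp (-(Lm h * yj j)) * ET (2 ^ (j + 1)) (fun m => ind (m ≤ k - 1)) ≤
            exp (-(Lm h * yj j)) * (K * (exp (-((h + s) * k)) *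
              (2 / (-h) * (exp (Lm (h + s) * yj j) / √(yj j + x0))))) := by
              apply mul_le_mul_of_nonneg_left _ (exp_pos _).le
              refine g1.trans ?_
              apply mul_le_mul_of_nonneg_left _ hK0.le
              exact mul_le_mul g4 g3 (Pool.Agent.U154.MD.pf1_pos (by linarith) _).le (exp_pos _).le
          _ = K * (2 / (-h)) * (exp (-(Lm h * yj j) + -((h + s) * k) + Lm (h + s) * yj j) /
                √(yj j + x0)) := by
              rw [exp_add, exp_add]
              ring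
          _ ≤ _ := by
              apply mul_le_mul_of_nonneg_left _ (by positivity)
              apply div_le_div_of_nonneg_right _ hyx.le
              apply exp_le_exp.2
              have := mul_le_mul_of_nonneg_right g2 hy.le
              linarith) J
    exact k2
  · obtain ⟨J0, hJ0⟩ := hlos k e2
    refine ⟨J0, ?_⟩
    have k2 := hJ0 K2 h hK2p.le
      (fun j => exp (-(Lm h * yj j)) * ET (2 ^ (j + 1)) (fun m => ind (m ≤ k - 1))) (by
        intro j
        apply mul_nonneg (exp_pos _).le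
        exact (Pool.Agent.U154.BE.ET_ind_bd _ _).1) (by
        intro j hj
        have hyd : yj j = log 2 * j + log 2 := rfl
        rw [← hyd] at hj
        have hy := yj_pos j
        obtain ⟨h', f1, f2, f3, f4, f5⟩ := hcore k e3 (yj j) hy hj
        have f1' := abs_le.1 f1
        have hn : n1 ≤ 2 ^ (j + 1) := by
          by_contra hcon
          have c1 : log ((2 ^ (j + 1) : ℕ) : ℝ) < log ((n1 + 1 : ℕ) : ℝ) := by
            apply log_lt_log
            · positivity
            · exact_mod_cast (by omega : 2 ^ (j + 1) < n1 + 1)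
          rw [yj_eq] at c1
          have c2 : 2 * dL h * log (n1 + 1 : ℕ) ≤ k :=
            (Nat.le_ceil _).trans (by exact_mod_cast e5)
          rw [div_le_iff₀ (by positivity)] at f3
          have c3 : yj j * (2 * dL h) < log ((n1 + 1 : ℕ) : ℝ) * (2 * dL h) :=
            mul_lt_mul_of_pos_right c1 (by positivity)
          linarith
        have hh'0 : 0 ≤ -h' := by linarith
        have hh'H : -h' ≤ H := by linarith
        have g1 := hn1 (2 ^ (j + 1)) hn (-h') hh'0 hh'H (k - 1) (by
          rw [yj_eq, neg_neg, f2, hkm]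
          norm_num)
        rw [yj_eq] at g1
        have g2 := root_le hx0 hμ hk1' f4
        have g3 : 1 + -h' * √(yj j + x0) ≤ (1 + H * √(2 / dL h + x0)) * √(k:ℝ) := by
          have i1 : -h' * √(yj j + x0) ≤ H * (√(2 / dL h + x0) * √(k:ℝ)) :=
            mul_le_mul hh'H g2 (sqrt_nonneg _) hH.le
          linarith
        have hd1 : 0 < 1 + -h' * √(yj j + x0) := by positivity
        have hd2 : 0 < (1 + H * √(2 / dL h + x0)) * √(k:ℝ) := by positivity
        have g5 : exp (-H) * exp (-(h' * k)) ≤ exp (-h' * ((k - 1 : ℕ) : ℝ)) := by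
          rw [← exp_add]
          apply exp_le_exp.2
          rw [hkm]
          linarith
        have hp1 := Pool.Agent.U154.MD.pf1_pos hh'0 (yj j)
        calc K2 * exp (-(h * k)) / √(k:ℝ) = kk * exp (-H) * (exp (-(h * k) - 2 * dL h / a) /
              ((1 + H * √(2 / dL h + x0)) * √(k:ℝ))) := by
              rw [hK2, sub_eq_add_neg, exp_add]
              field_simp
          _ ≤ kk * exp (-H) * (exp (-(h' * k) + (Lm h' - Lm h) * yj j) /
                (1 + -h' * √(yj j + x0))) := by
              apply mul_le_mul_of_nonneg_left _ (by positivity)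
              exact div_le_div₀ (exp_pos _).le (exp_le_exp.2 f5) hd1 g3
          _ = exp (-(Lm h * yj j)) * (kk * ((exp (-H) * exp (-(h' * k))) * pf1 (-h') (yj j))) := by
              unfold pf1
              rw [neg_neg]
              have : exp (-(h' * k) + (Lm h' - Lm h) * yj j) =
                  exp (-(Lm h * yj j)) * (exp (-(h' * k)) * exp (Lm h' * yj j)) := by
                rw [← exp_add, ← exp_add]
                congr 1
                ring
              rw [this]
              ring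
          _ ≤ exp (-(Lm h * yj j)) * (kk * (exp (-h' * ((k - 1 : ℕ) : ℝ)) * pf1 (-h') (yj j))) := by
              apply mul_le_mul_of_nonneg_left _ (exp_pos _).le
              apply mul_le_mul_of_nonneg_left _ hkk.le
              exact mul_le_mul_of_nonneg_right g5 hp1.le
          _ ≤ _ := mul_le_mul_of_nonneg_left g1 (exp_pos _).le) J0 le_rfl
    exact k2

end Pool.Agent.U154.RD
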